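import Pool.Agent.W_332fe5_ito.Br

/-!
Block 4, the two outputs: `ItoData.dynkin` and `ItoData.product`, proved in `Br.lean`.
-/
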