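import Mathlib

set_option autoImplicit false
set_option linter.unusedSectionVars false

/-!
Ito's formula in expectation, part A: martingale increments along a partition.
-/

open MeasureTheory ProbabilityTheory Set Filter Topology Finset
open scoped ENNReal NNReal

namespace Pool.Agent.W_332fe5

variable {Ω : Type} [mΩ : MeasurableSpace Ω] {P : Measure Ω} [IsProbabilityMeasure P]
  {F : Filtration ℝ≥0 mΩ}

/-- a bounded measurable function is integrable -/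
lemma int_bdd {f : Ω → ℝ} (hf : Measurable f) {C : ℝ} (hb : ∀ ω, |f ω| ≤ C) : Integrable f P :=
  Integrable.of_bound hf.aestronglyMeasurable C (ae_of_all _ hb)

/-- the martingale property tested with a bounded measurable factor -/
lemma mart_mul {f : ℝ≥0 → Ω → ℝ} (hf : Martingale f F P) {s t : ℝ≥0} (hst : s ≤ t) {Y : Ω → ℝ}
    (hY : StronglyMeasurable[F s] Y) {C : ℝ} (hb : ∀ ω, |Y ω| ≤ C) :
    ∫ ω, Y ω * f t ω ∂P = ∫ ω, Y ω * f s ω ∂P := by
  have h1 : P[Y * f t | F s] =ᵐ[P] Y * P[f t | F s] :=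
    condExp_stronglyMeasurable_mul_of_bound (F.le s) hY (hf.integrable t) C (ae_of_all _ hb)
  have h2 : P[f t | F s] =ᵐ[P] f s := hf.condExp_ae_eq hst
  have h3 : ∫ ω, (P[Y * f t | F s]) ω ∂P = ∫ ω, (Y * f t) ω ∂P := integral_condExp (F.le s)
  calc ∫ ω, Y ω * f t ω ∂P = ∫ ω, (P[Y * f t | F s]) ω ∂P := h3.symm
    _ = ∫ ω, Y ω * f s ω ∂P := by
        refine integral_congr_ae ?_
        filter_upwards [h1, h2] with ω e1 e2
        rw [e1, Pi.mul_apply, e2]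

variable {N : ℝ} {m : ℕ → Ω → ℝ} {u : ℕ → ℝ≥0}

/-- a bounded martingale sampled along an increasing sequence -/
structure Samp (P : Measure Ω) (F : Filtration ℝ≥0 mΩ) (u : ℕ → ℝ≥0) (N : ℝ) (m : ℕ → Ω → ℝ) :
    Prop where
  mono : Monotone u
  ad : ∀ k, StronglyMeasurable[F (u k)] (m k)
  bdd : ∀ k ω, |m k ω| ≤ N
  zero : ∀ ω, m 0 ω = 0
  orth : ∀ k (Y : Ω → ℝ) (C : ℝ), StronglyMeasurable[F (u k)] Y → (∀ ω, |Y ω| ≤ C) →
    ∫ ω, Y ω * (m (k + 1) ω - m k ω) ∂P = 0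

lemma Samp.meas (h : Samp P F u N m) (k : ℕ) : Measurable (m k) :=
  ((h.ad k).mono (F.le _)).measurable

lemma Samp.nonneg [Nonempty Ω] (h : Samp P F u N m) : 0 ≤ N := by
  obtain ⟨ω⟩ := ‹Nonempty Ω›
  exact (abs_nonneg _).trans (h.bdd 0 ω)

lemma Samp.dbdd (h : Samp P F u N m) (k : ℕ) (ω : Ω) : |m (k + 1) ω - m k ω| ≤ 2 * N := by
  have h1 := h.bdd k ω
  have h2 := h.bdd (k + 1) ω
  rw [abs_le] at *
  constructor <;> linarith [h1.1, h1.2, h2.1, h2.2]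

/-- `∑ Yₖ Dₖ` -/
def tsum' (Y m : ℕ → Ω → ℝ) (n : ℕ) (ω : Ω) : ℝ :=
  ∑ k ∈ range n, Y k ω * (m (k + 1) ω - m k ω)

lemma Samp.sq_incr (h : Samp P F u N m) (k : ℕ) :
    ∫ ω, (m (k + 1) ω - m k ω) ^ 2 ∂P = ∫ ω, m (k + 1) ω ^ 2 ∂P - ∫ ω, m k ω ^ 2 ∂P := by
  have h1 := h.orth k (m k) N (h.ad k) (h.bdd k)
  have hm := h.meas k
  have hm' := h.meas (k + 1)
  have b1 : ∀ ω, |m k ω ^ 2| ≤ N ^ 2 := fun ω => by
    rw [abs_pow]; exact pow_le_pow_left₀ (abs_nonneg _) (h.bdd k ω) 2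
  have b2 : ∀ ω, |m (k + 1) ω ^ 2| ≤ N ^ 2 := fun ω => by
    rw [abs_pow]; exact pow_le_pow_left₀ (abs_nonneg _) (h.bdd (k + 1) ω) 2
  have b3 : ∀ ω, |m k ω * (m (k + 1) ω - m k ω)| ≤ N * (2 * N) := fun ω => by
    rw [abs_mul]
    exact mul_le_mul (h.bdd k ω) (h.dbdd k ω) (abs_nonneg _) ((abs_nonneg _).trans (h.bdd k ω))
  have i1 : Integrable (fun ω => m k ω ^ 2) P := int_bdd (hm.pow_const 2) b1
  have i2 : Integrable (fun ω => m (k + 1) ω ^ 2) P := int_bdd (hm'.pow_const 2) b2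
  have i3 : Integrable (fun ω => m k ω * (m (k + 1) ω - m k ω)) P :=
    int_bdd (hm.mul (hm'.sub hm)) b3
  have e : ∀ ω, (m (k + 1) ω - m k ω) ^ 2 =
      m (k + 1) ω ^ 2 - m k ω ^ 2 - 2 * (m k ω * (m (k + 1) ω - m k ω)) := fun ω => by ring
  have i21 : Integrable (fun ω => m (k + 1) ω ^ 2 - m k ω ^ 2) P := i2.sub i1
  simp_rw [e]
  rw [integral_sub i21 (i3.const_mul 2), integral_sub i2 i1, integral_const_mul, h1]
  ring

lemma tsum'_meas (h : Samp P F u N m) {Y : ℕ → Ω → ℝ}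
    (hY : ∀ k, StronglyMeasurable[F (u k)] (Y k)) (n : ℕ) :
    StronglyMeasurable[F (u n)] (tsum' Y m n) := by
  unfold tsum'
  refine Finset.stronglyMeasurable_fun_sum _ fun k hk => ?_
  have hk' : k + 1 ≤ n := Finset.mem_range.1 hk
  exact ((hY k).mono (F.mono (h.mono (by omega)))).mul
    (((h.ad (k + 1)).mono (F.mono (h.mono hk'))).sub ((h.ad k).mono (F.mono (h.mono (by omega)))))

lemma tsum'_bdd [Nonempty Ω] (h : Samp P F u N m) {Y : ℕ → Ω → ℝ} {C : ℝ} (hb : ∀ k ω, |Y k ω| ≤ C)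
    (n : ℕ) (ω : Ω) : |tsum' Y m n ω| ≤ n * (C * (2 * N)) := by
  unfold tsum'
  refine (Finset.abs_sum_le_sum_abs _ _).trans ?_
  calc ∑ k ∈ range n, |Y k ω * (m (k + 1) ω - m k ω)| ≤ ∑ k ∈ range n, C * (2 * N) := by
        refine Finset.sum_le_sum fun k _ => ?_
        rw [abs_mul]
        exact mul_le_mul (hb k ω) (h.dbdd k ω) (abs_nonneg _) ((abs_nonneg _).trans (hb k ω))
    _ = n * (C * (2 * N)) := by rw [Finset.sum_const, Finset.card_range, nsmul_eq_mul]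

/-- second moment of `∑ Yₖ Dₖ` -/
theorem tsum'_sq [Nonempty Ω] (h : Samp P F u N m) {Y : ℕ → Ω → ℝ}
    (hY : ∀ k, StronglyMeasurable[F (u k)] (Y k)) {C : ℝ} (hb : ∀ k ω, |Y k ω| ≤ C) (n : ℕ) :
    ∫ ω, tsum' Y m n ω ^ 2 ∂P ≤ C ^ 2 * ∫ ω, m n ω ^ 2 ∂P := by
  induction n with
  | zero =>
    simp only [tsum', Finset.range_zero, Finset.sum_empty]
    have : ∫ ω, m 0 ω ^ 2 ∂P = 0 := by simp [h.zero]
    rw [this]; simp
  | succ n ih =>
    have hT := tsum'_meas h hY n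
    have hT' : Measurable (tsum' Y m n) := (hT.mono (F.le _)).measurable
    have hD : Measurable fun ω => m (n + 1) ω - m n ω := (h.meas (n + 1)).sub (h.meas n)
    have hYm : Measurable (Y n) := ((hY n).mono (F.le _)).measurable
    have hbT := tsum'_bdd h hb n
    have hN := h.nonneg
    obtain ⟨ω₀⟩ := ‹Nonempty Ω›
    have hC : 0 ≤ C := (abs_nonneg _).trans (hb 0 ω₀)
    have : Nonempty Ω := ⟨ω₀⟩
    set B : ℝ := n * (C * (2 * N)) with hBdef
    have hB : 0 ≤ B := by positivity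
    have e : ∀ ω, tsum' Y m (n + 1) ω ^ 2 = tsum' Y m n ω ^ 2 +
        2 * ((tsum' Y m n ω * Y n ω) * (m (n + 1) ω - m n ω)) +
        (Y n ω * (m (n + 1) ω - m n ω)) ^ 2 := fun ω => by
      unfold tsum'
      rw [Finset.sum_range_succ]; ring
    have bYD : ∀ ω, |Y n ω * (m (n + 1) ω - m n ω)| ≤ C * (2 * N) := fun ω => by
      rw [abs_mul]
      exact mul_le_mul (hb n ω) (h.dbdd n ω) (abs_nonneg _) hC
    have i1 : Integrable (fun ω => tsum' Y m n ω ^ 2) P :=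
      int_bdd (hT'.pow_const 2) (C := B ^ 2) fun ω => by
        rw [abs_pow]; exact pow_le_pow_left₀ (abs_nonneg _) (hbT ω) 2
    have bTY : ∀ ω, |tsum' Y m n ω * Y n ω| ≤ B * C := fun ω => by
      rw [abs_mul]; exact mul_le_mul (hbT ω) (hb n ω) (abs_nonneg _) hB
    have i2 : Integrable (fun ω => (tsum' Y m n ω * Y n ω) * (m (n + 1) ω - m n ω)) P :=
      int_bdd ((hT'.mul hYm).mul hD) (C := B * C * (2 * N)) fun ω => by
        rw [abs_mul]; exact mul_le_mul (bTY ω) (h.dbdd n ω) (abs_nonneg _) (by positivity)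
    have i3 : Integrable (fun ω => (Y n ω * (m (n + 1) ω - m n ω)) ^ 2) P :=
      int_bdd ((hYm.mul hD).pow_const 2) (C := (C * (2 * N)) ^ 2) fun ω => by
        rw [abs_pow]; exact pow_le_pow_left₀ (abs_nonneg _) (bYD ω) 2
    have z : ∫ ω, (tsum' Y m n ω * Y n ω) * (m (n + 1) ω - m n ω) ∂P = 0 :=
      h.orth n (fun ω => tsum' Y m n ω * Y n ω) (B * C) (hT.mul (hY n)) bTY
    have i4 : Integrable (fun ω => (m (n + 1) ω - m n ω) ^ 2) P :=
      int_bdd (hD.pow_const 2) (C := (2 * N) ^ 2) fun ω => by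
        rw [abs_pow]; exact pow_le_pow_left₀ (abs_nonneg _) (h.dbdd n ω) 2
    have c1 : ∫ ω, (Y n ω * (m (n + 1) ω - m n ω)) ^ 2 ∂P ≤
        C ^ 2 * ∫ ω, (m (n + 1) ω - m n ω) ^ 2 ∂P := by
      rw [← integral_const_mul]
      refine integral_mono i3 (i4.const_mul _) fun ω => ?_
      simp only
      rw [mul_pow]
      refine mul_le_mul_of_nonneg_right ?_ (sq_nonneg _)
      rw [← sq_abs (Y n ω)]
      exact pow_le_pow_left₀ (abs_nonneg _) (hb n ω) 2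
    have i12 : Integrable (fun ω => tsum' Y m n ω ^ 2 +
        2 * ((tsum' Y m n ω * Y n ω) * (m (n + 1) ω - m n ω))) P := i1.add (i2.const_mul 2)
    simp_rw [e]
    rw [integral_add i12 i3, integral_add i1 (i2.const_mul 2),
      integral_const_mul, z]
    rw [h.sq_incr n] at c1
    nlinarith

/-- `∑ Dₖ²` -/
def qsum (m : ℕ → Ω → ℝ) (n : ℕ) (ω : Ω) : ℝ := ∑ k ∈ range n, (m (k + 1) ω - m k ω) ^ 2

lemma qsum_nonneg (m : ℕ → Ω → ℝ) (n : ℕ) (ω : Ω) : 0 ≤ qsum m n ω :=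
  Finset.sum_nonneg fun _ _ => sq_nonneg _

lemma qsum_eq (h : Samp P F u N m) (n : ℕ) (ω : Ω) :
    qsum m n ω = m n ω ^ 2 - 2 * tsum' m m n ω := by
  unfold qsum tsum'
  induction n with
  | zero => simp [h.zero]
  | succ n ih => rw [Finset.sum_range_succ, Finset.sum_range_succ, ih]; ring

lemma qsum_meas (h : Samp P F u N m) (n : ℕ) : Measurable (qsum m n) := by
  unfold qsum
  exact Finset.measurable_fun_sum _ fun k _ => ((h.meas (k + 1)).sub (h.meas k)).pow_const 2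

/-- the square sums are bounded in `L²` -/
theorem qsum_sq [Nonempty Ω] (h : Samp P F u N m) (n : ℕ) :
    ∫ ω, qsum m n ω ^ 2 ∂P ≤ 10 * N ^ 4 := by
  have hT := tsum'_sq h h.ad (C := N) h.bdd n
  have hTm : Measurable (tsum' m m n) := ((tsum'_meas h h.ad n).mono (F.le _)).measurable
  have hbT := tsum'_bdd h h.bdd n
  have b2 : ∀ ω, m n ω ^ 2 ≤ N ^ 2 := fun ω => by
    rw [← sq_abs]; exact pow_le_pow_left₀ (abs_nonneg _) (h.bdd n ω) 2
  have i2 : Integrable (fun ω => m n ω ^ 2) P :=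
    int_bdd ((h.meas n).pow_const 2) (C := N ^ 2) fun ω => by
      rw [abs_of_nonneg (sq_nonneg _)]; exact b2 ω
  have e1 : ∫ ω, m n ω ^ 2 ∂P ≤ N ^ 2 := by
    calc ∫ ω, m n ω ^ 2 ∂P ≤ ∫ _ : Ω, N ^ 2 ∂P := integral_mono i2 (integrable_const _) b2
      _ = N ^ 2 := by simp
  have i1 : Integrable (fun ω => tsum' m m n ω ^ 2) P :=
    int_bdd (hTm.pow_const 2) (C := (n * (N * (2 * N))) ^ 2) fun ω => by
      rw [abs_pow]; exact pow_le_pow_left₀ (abs_nonneg _) (hbT ω) 2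
  have key : ∀ ω, qsum m n ω ^ 2 ≤ 2 * N ^ 4 + 8 * tsum' m m n ω ^ 2 := fun ω => by
    rw [qsum_eq h n ω]
    have := b2 ω
    have h0 : 0 ≤ m n ω ^ 2 := sq_nonneg _
    nlinarith [sq_nonneg (m n ω ^ 2 + 2 * tsum' m m n ω)]
  calc ∫ ω, qsum m n ω ^ 2 ∂P ≤ ∫ ω, (2 * N ^ 4 + 8 * tsum' m m n ω ^ 2) ∂P := by
        refine integral_mono_of_nonneg (ae_of_all _ fun ω => sq_nonneg _)
          ((integrable_const _).add (i1.const_mul 8)) (ae_of_all _ key)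
    _ = 2 * N ^ 4 + 8 * ∫ ω, tsum' m m n ω ^ 2 ∂P := by
        rw [integral_add (integrable_const _) (i1.const_mul 8), integral_const_mul 8]; simp
    _ ≤ 10 * N ^ 4 := by
        have : N ^ 2 * ∫ ω, m n ω ^ 2 ∂P ≤ N ^ 2 * N ^ 2 :=
          mul_le_mul_of_nonneg_left e1 (sq_nonneg _)
        nlinarith

end Pool.Agent.W_332fe5
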