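import Mathlib

set_option autoImplicit false
set_option linter.unusedSectionVars false

/-!
Ito's formula in expectation, part B: Taylor's formula along a partition (deterministic).
-/

open Set Filter Topology Finset

namespace Pool.Agent.W_332fe5

/-- the class of functions to which the formula is applied -/
structure JC (j : ℝ → ℝ) (K : ℝ) : Prop where
  smooth : ContDiff ℝ 3 j
  b1 : ∀ s, |deriv j s| ≤ K
  b2 : ∀ s, |iteratedDeriv 2 j s| ≤ K
  b3 : ∀ s, |iteratedDeriv 3 j s| ≤ K

variable {j : ℝ → ℝ} {K : ℝ}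

lemma JC.nonneg (h : JC j K) : 0 ≤ K := (abs_nonneg _).trans (h.b1 0)

lemma JC.d0 (h : JC j K) (s : ℝ) : HasDerivAt j (deriv j s) s :=
  (h.smooth.differentiable (by norm_num) s).hasDerivAt

lemma JC.d1 (h : JC j K) (s : ℝ) : HasDerivAt (deriv j) (iteratedDeriv 2 j s) s := by
  have h1 : ContDiff ℝ 2 (deriv j) := by
    have := h.smooth
    rw [show (3 : WithTop ℕ∞) = 2 + 1 by norm_num, contDiff_succ_iff_deriv] at this
    exact this.2.2
  have := (h1.differentiable (by norm_num) s).hasDerivAt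
  rw [show iteratedDeriv 2 j = deriv (deriv j) by
    rw [iteratedDeriv_succ, iteratedDeriv_one]]
  exact this

lemma JC.d2 (h : JC j K) (s : ℝ) : HasDerivAt (iteratedDeriv 2 j) (iteratedDeriv 3 j s) s := by
  have h1 : Differentiable ℝ (iteratedDeriv 2 j) :=
    h.smooth.differentiable_iteratedDeriv 2 (by norm_num)
  rw [show iteratedDeriv 3 j = deriv (iteratedDeriv 2 j) by rw [iteratedDeriv_succ]]
  exact (h1 s).hasDerivAt

lemma JC.c1 (h : JC j K) : Continuous (deriv j) :=
  continuous_iff_continuousAt.2 fun s => (h.d1 s).continuousAt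

lemma JC.c2 (h : JC j K) : Continuous (iteratedDeriv 2 j) :=
  continuous_iff_continuousAt.2 fun s => (h.d2 s).continuousAt

lemma JC.lip (h : JC j K) (x y : ℝ) : |j y - j x| ≤ K * |y - x| := by
  have := Convex.norm_image_sub_le_of_norm_hasDerivWithin_le (s := univ) (C := K)
    (fun x _ => (h.d0 x).hasDerivWithinAt) (fun x _ => by simpa using h.b1 x) convex_univ
    (mem_univ x) (mem_univ y)
  simpa using this

lemma JC.lip2 (h : JC j K) (x y : ℝ) : |iteratedDeriv 2 j y - iteratedDeriv 2 j x| ≤ K * |y - x| := by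
  have := Convex.norm_image_sub_le_of_norm_hasDerivWithin_le (s := univ) (C := K)
    (fun x _ => (h.d2 x).hasDerivWithinAt) (fun x _ => by simpa using h.b3 x) convex_univ
    (mem_univ x) (mem_univ y)
  simpa using this

/-- Taylor's formula -/
theorem JC.taylor (h : JC j K) (x t : ℝ) :
    |j (x + t) - j x - deriv j x * t - iteratedDeriv 2 j x * t ^ 2 / 2| ≤ K * |t| ^ 3 := by
  have hK := h.nonneg
  have hsh : ∀ s : ℝ, HasDerivAt (fun s => x + s) 1 s := fun s => by
    simpa using (hasDerivAt_id s).const_add x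
  set I : Set ℝ := Icc (-|t|) |t| with hI
  have hconv : Convex ℝ I := convex_Icc _ _
  have h0I : (0 : ℝ) ∈ I := ⟨by simp, abs_nonneg _⟩
  have htI : t ∈ I := ⟨neg_abs_le t, le_abs_self t⟩
  have e1 : ∀ s ∈ I, |deriv j (x + s) - deriv j x - iteratedDeriv 2 j x * s| ≤ K * |t| * |t| := by
    intro s hs
    have hd : ∀ s ∈ I, HasDerivWithinAt
        (fun s => deriv j (x + s) - deriv j x - iteratedDeriv 2 j x * s)
        (iteratedDeriv 2 j (x + s) - iteratedDeriv 2 j x) I s := fun s _ => by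
      have a1 := (h.d1 (x + s)).comp s (hsh s)
      have a2 : HasDerivAt (fun s => iteratedDeriv 2 j x * s) (iteratedDeriv 2 j x) s := by
        simpa using (hasDerivAt_id s).const_mul (iteratedDeriv 2 j x)
      have a3 := (a1.sub_const (deriv j x)).sub a2
      simp only [mul_one] at a3
      exact a3.hasDerivWithinAt
    have hb : ∀ s ∈ I, ‖iteratedDeriv 2 j (x + s) - iteratedDeriv 2 j x‖ ≤ K * |t| := fun s hs => by
      rw [Real.norm_eq_abs]
      refine (h.lip2 x (x + s)).trans ?_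
      rw [add_sub_cancel_left]
      exact mul_le_mul_of_nonneg_left (abs_le.2 hs) hK
    have := hconv.norm_image_sub_le_of_norm_hasDerivWithin_le hd hb h0I hs
    simp only [add_zero, mul_zero, sub_self, sub_zero, Real.norm_eq_abs] at this
    exact this.trans (mul_le_mul_of_nonneg_left (abs_le.2 hs) (by positivity))
  have hd : ∀ s ∈ I, HasDerivWithinAt
      (fun s => j (x + s) - j x - deriv j x * s - iteratedDeriv 2 j x * s ^ 2 / 2)
      (deriv j (x + s) - deriv j x - iteratedDeriv 2 j x * s) I s := fun s _ => by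
    have a1 := (h.d0 (x + s)).comp s (hsh s)
    have a2 : HasDerivAt (fun s => deriv j x * s) (deriv j x) s := by
      simpa using (hasDerivAt_id s).const_mul (deriv j x)
    have a3 : HasDerivAt (fun s => iteratedDeriv 2 j x * s ^ 2 / 2) (iteratedDeriv 2 j x * s) s := by
      have := ((hasDerivAt_pow 2 s).const_mul (iteratedDeriv 2 j x)).div_const 2
      exact this.congr_deriv (by push_cast; ring)
    have a4 := ((a1.sub_const (j x)).sub a2).sub a3
    simp only [mul_one] at a4
    exact a4.hasDerivWithinAt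
  have hb : ∀ s ∈ I, ‖deriv j (x + s) - deriv j x - iteratedDeriv 2 j x * s‖ ≤ K * |t| * |t| :=
    fun s hs => by rw [Real.norm_eq_abs]; exact e1 s hs
  have := hconv.norm_image_sub_le_of_norm_hasDerivWithin_le hd hb h0I htI
  simp only [add_zero, mul_zero, sub_self, sub_zero, Real.norm_eq_abs] at this
  have e2 : K * |t| * |t| * |t| = K * |t| ^ 3 := by ring
  rw [← e2]
  refine le_trans (le_of_eq ?_) this
  congr 1
  ring

/-- one step -/
lemma JC.step (h : JC j K) (x a d δ : ℝ) (hδ : |a| + |d| ≤ δ) :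
    |j (x + (a + d)) - j x - deriv j x * (a + d) - iteratedDeriv 2 j x * d ^ 2 / 2| ≤
      2 * K * δ * (δ * |a| + d ^ 2) + K * δ * |a| := by
  have hK := h.nonneg
  have h1 := h.taylor x (a + d)
  have ha := abs_nonneg a
  have hd := abs_nonneg d
  have hδ0 : 0 ≤ δ := by linarith
  have h2 : |a + d| ≤ δ := (abs_add_le a d).trans hδ
  have e : j (x + (a + d)) - j x - deriv j x * (a + d) - iteratedDeriv 2 j x * d ^ 2 / 2 =
      (j (x + (a + d)) - j x - deriv j x * (a + d) - iteratedDeriv 2 j x * (a + d) ^ 2 / 2) +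
      iteratedDeriv 2 j x * ((a * (a + 2 * d)) / 2) := by ring
  rw [e]
  refine (abs_add_le _ _).trans ?_
  have h3 : |a + d| ^ 3 ≤ 2 * δ * (δ * |a| + d ^ 2) := by
    have h4 : |a + d| ^ 3 = |a + d| * (a + d) ^ 2 := by rw [← sq_abs (a + d)]; ring
    rw [h4]
    have h5 : (a + d) ^ 2 ≤ 2 * (δ * |a| + d ^ 2) := by
      have h6 : a ^ 2 ≤ δ * |a| := by
        rw [← sq_abs a, sq]
        exact mul_le_mul_of_nonneg_right (by linarith) ha
      nlinarith [sq_nonneg (a - d)]
    calc |a + d| * (a + d) ^ 2 ≤ δ * (2 * (δ * |a| + d ^ 2)) :=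
          mul_le_mul h2 h5 (sq_nonneg _) hδ0
      _ = 2 * δ * (δ * |a| + d ^ 2) := by ring
  have h7 : |iteratedDeriv 2 j x * ((a * (a + 2 * d)) / 2)| ≤ K * δ * |a| := by
    rw [abs_mul, abs_div, abs_mul, abs_two]
    have h8 : |a + 2 * d| ≤ 2 * δ := by
      refine (abs_add_le _ _).trans ?_
      rw [abs_mul, abs_two]; linarith
    calc |iteratedDeriv 2 j x| * (|a| * |a + 2 * d| / 2) ≤ K * (|a| * (2 * δ) / 2) := by
          refine mul_le_mul (h.b2 x) ?_ (by positivity) hK
          have := mul_le_mul_of_nonneg_left h8 ha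
          linarith
      _ = K * δ * |a| := by ring
  have h9 : K * |a + d| ^ 3 ≤ 2 * K * δ * (δ * |a| + d ^ 2) := by
    calc K * |a + d| ^ 3 ≤ K * (2 * δ * (δ * |a| + d ^ 2)) := mul_le_mul_of_nonneg_left h3 hK
      _ = _ := by ring
  linarith

/-- the sum of the remainders -/
theorem JC.sum_rem (h : JC j K) {x : ℝ} (A m : ℕ → ℝ) (hA : A 0 = 0) (hm : m 0 = 0) (n : ℕ)
    {V δ : ℝ} (hV : ∑ k ∈ range n, |A (k + 1) - A k| ≤ V) (hδ0 : 0 ≤ δ)
    (hδ : ∀ k < n, |A (k + 1) - A k| + |m (k + 1) - m k| ≤ δ) :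
    |j (x + A n + m n) - j x - ∑ k ∈ range n, deriv j (x + A k + m k) * (A (k + 1) - A k) -
      ∑ k ∈ range n, deriv j (x + A k + m k) * (m (k + 1) - m k) -
      (∑ k ∈ range n, iteratedDeriv 2 j (x + A k + m k) * (m (k + 1) - m k) ^ 2) / 2| ≤
      2 * K * δ * (δ * V + ∑ k ∈ range n, (m (k + 1) - m k) ^ 2) + K * δ * V := by
  have hK := h.nonneg
  have e : j (x + A n + m n) - j x = ∑ k ∈ range n,
      (j (x + A (k + 1) + m (k + 1)) - j (x + A k + m k)) := by
    rw [Finset.sum_range_sub (fun k => j (x + A k + m k)), hA, hm]; simp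
  rw [e, Finset.sum_div, ← Finset.sum_sub_distrib, ← Finset.sum_sub_distrib,
    ← Finset.sum_sub_distrib]
  refine (Finset.abs_sum_le_sum_abs _ _).trans ?_
  have h1 : ∀ k ∈ range n, |j (x + A (k + 1) + m (k + 1)) - j (x + A k + m k) -
      deriv j (x + A k + m k) * (A (k + 1) - A k) - deriv j (x + A k + m k) * (m (k + 1) - m k) -
      iteratedDeriv 2 j (x + A k + m k) * (m (k + 1) - m k) ^ 2 / 2| ≤
      2 * K * δ * (δ * |A (k + 1) - A k| + (m (k + 1) - m k) ^ 2) +
        K * δ * |A (k + 1) - A k| := fun k hk => by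
    have := h.step (x + A k + m k) (A (k + 1) - A k) (m (k + 1) - m k) δ
      (hδ k (Finset.mem_range.1 hk))
    refine le_trans (le_of_eq ?_) this
    congr 1
    rw [show x + A k + m k + (A (k + 1) - A k + (m (k + 1) - m k)) = x + A (k + 1) + m (k + 1) by
      ring]
    ring
  refine (Finset.sum_le_sum h1).trans ?_
  rw [Finset.sum_add_distrib, ← Finset.mul_sum, ← Finset.mul_sum, Finset.sum_add_distrib,
    ← Finset.mul_sum]
  have h2 : δ * ∑ k ∈ range n, |A (k + 1) - A k| ≤ δ * V := mul_le_mul_of_nonneg_left hV hδ0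
  have h3 : 2 * K * δ * (δ * ∑ k ∈ range n, |A (k + 1) - A k| +
      ∑ k ∈ range n, (m (k + 1) - m k) ^ 2) ≤
      2 * K * δ * (δ * V + ∑ k ∈ range n, (m (k + 1) - m k) ^ 2) :=
    mul_le_mul_of_nonneg_left (by linarith) (by positivity)
  have h4 : K * δ * ∑ k ∈ range n, |A (k + 1) - A k| ≤ K * δ * V :=
    mul_le_mul_of_nonneg_left hV (by positivity)
  linarith

end Pool.Agent.W_332fe5
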