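import Pool.Agent.W_332fe5_h47.Prog

set_option autoImplicit false

/-!
Block 4, the interface with block 3: the data of Ito's formula and the statements of the two
formulas in expectation.  Time is `ℝ≥0` in the data and real in the conclusions.
-/

open MeasureTheory ProbabilityTheory Set Filter Topology
open scoped ENNReal NNReal

namespace Pool.Agent.W_332fe5

/-- the data `dX = a dt + dM`, `d⟨M⟩ = b² dt`, stopped at `S ≤ 1` -/
structure ItoData {Ω : Type} [MeasurableSpace Ω] (B : Basis Ω) (S : Ω → ℝ≥0∞) (K : ℝ)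
    (a b M : ℝ≥0 → Ω → ℝ) : Prop where
  stop : IsStop B S
  le_one : ∀ ω, S ω ≤ 1
  prog_a : IsStronglyProgressive B.F a
  prog_b : IsStronglyProgressive B.F b
  kill_a : ∀ (t : ℝ≥0) ω, S ω ≤ t → a t ω = 0
  kill_b : ∀ (t : ℝ≥0) ω, S ω ≤ t → b t ω = 0
  bdd_a : ∀ ω, ∫⁻ s, ‖a s ω‖ₑ ∂lam ≤ ENNReal.ofReal K
  bdd_b : ∀ ω, ∫⁻ s, ‖b s ω‖ₑ ^ 2 ∂lam ≤ ENNReal.ofReal K
  cont_M : ∀ ω, Continuous fun t => M t ω
  zero_M : ∀ ω, M 0 ω = 0
  stop_M : ∀ t ω, M (cutT t (S ω)) ω = M t ω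
  mart : ∀ ρ : Ω → ℝ≥0∞, IsStop B ρ → (∀ ω, ρ ω ≤ S ω) →
    Martingale (fun t ω => M (cutT t (ρ ω)) ω) B.F B.P ∧
    Martingale (fun t ω => M (cutT t (ρ ω)) ω ^ 2 -
      ∫ s in Iic (cutT t (ρ ω)), b s ω ^ 2 ∂lam) B.F B.P

/-- the process `X`, real time -/
noncomputable def XR {Ω : Type} (x : ℝ) (a M : ℝ≥0 → Ω → ℝ) (t : ℝ) (ω : Ω) : ℝ :=
  x + ∫ s in Iic t.toNNReal, a s ω ∂lam + M t.toNNReal ω

/-- Ito's formula for `j X`, in expectation -/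
def DynkinFor {Ω : Type} [MeasurableSpace Ω] (B : Basis Ω) (x : ℝ)
    (a b M : ℝ≥0 → Ω → ℝ) : Prop :=
  ∀ (j : ℝ → ℝ) (L : ℝ), ContDiff ℝ 3 j →
    (∀ s, |deriv j s| ≤ L ∧ |iteratedDeriv 2 j s| ≤ L ∧ |iteratedDeriv 3 j s| ≤ L) →
    ∀ t ∈ Icc (0 : ℝ) 1,
      Integrable (fun z : ℝ × Ω => deriv j (XR x a M z.1 z.2) * a z.1.toNNReal z.2 +
        iteratedDeriv 2 j (XR x a M z.1 z.2) * b z.1.toNNReal z.2 ^ 2 / 2)
        ((volume.restrict (Ioo (0 : ℝ) 1)).prod B.P) ∧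
      ∫ ω, j (XR x a M t ω) ∂B.P = j x +
        ∫ z in Ioo (0 : ℝ) t ×ˢ univ, (deriv j (XR x a M z.1 z.2) * a z.1.toNNReal z.2 +
          iteratedDeriv 2 j (XR x a M z.1 z.2) * b z.1.toNNReal z.2 ^ 2 / 2)
          ∂((volume : Measure ℝ).prod B.P)

/-- Ito's product formula with a deterministic weight, in expectation -/
def ProductFor {Ω : Type} [MeasurableSpace Ω] (B : Basis Ω) (S : Ω → ℝ≥0∞) (x x' : ℝ)
    (a b M a' b' M' : ℝ≥0 → Ω → ℝ) : Prop :=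
  ∀ η : ℝ → ℝ, ContDiff ℝ 1 η → ∀ t ∈ Icc (0 : ℝ) 1,
      Integrable (fun z : ℝ × Ω => (if z.1 < (S z.2).toReal then 1 else 0) *
        (deriv η z.1 * (XR x a M z.1 z.2 * XR x' a' M' z.1 z.2) + η z.1 *
          (a z.1.toNNReal z.2 * XR x' a' M' z.1 z.2 + a' z.1.toNNReal z.2 * XR x a M z.1 z.2 +
            b z.1.toNNReal z.2 * b' z.1.toNNReal z.2)))
        ((volume.restrict (Ioo (0 : ℝ) 1)).prod B.P) ∧
      ∫ ω, η (min t (S ω).toReal) * (XR x a M t ω * XR x' a' M' t ω) ∂B.P =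
        η 0 * (x * x') +
        ∫ z in Ioo (0 : ℝ) t ×ˢ univ, (if z.1 < (S z.2).toReal then 1 else 0) *
          (deriv η z.1 * (XR x a M z.1 z.2 * XR x' a' M' z.1 z.2) + η z.1 *
            (a z.1.toNNReal z.2 * XR x' a' M' z.1 z.2 + a' z.1.toNNReal z.2 * XR x a M z.1 z.2 +
              b z.1.toNNReal z.2 * b' z.1.toNNReal z.2))
          ∂((volume : Measure ℝ).prod B.P)

end Pool.Agent.W_332fe5
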