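import Pool.Agent.W_332fe5_ito.I
import Pool.Agent.W_332fe5_ito.Data

set_option autoImplicit false
set_option linter.unusedSectionVars false

/-!
Block 4, the bridge from `ItoData` (time `ℝ≥0`) to `Ito` (real time).
-/

open MeasureTheory ProbabilityTheory Set Filter Topology
open scoped ENNReal NNReal

namespace Pool.Agent.W_332fe5

variable {Ω : Type} [mΩ : MeasurableSpace Ω] {B : Basis Ω}

/-- extension of a density to real time -/
noncomputable def ext (u : ℝ≥0 → Ω → ℝ) (t : ℝ) (ω : Ω) : ℝ := if 0 < t then u t.toNNReal ω else 0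

/-- extension of a process to real time -/
noncomputable def extM (M : ℝ≥0 → Ω → ℝ) (t : ℝ) (ω : Ω) : ℝ := M t.toNNReal ω

lemma ext_pos (u : ℝ≥0 → Ω → ℝ) {t : ℝ} (ht : 0 < t) (ω : Ω) : ext u t ω = u t.toNNReal ω := by
  unfold ext; rw [if_pos ht]

lemma ext_meas {u : ℝ≥0 → Ω → ℝ} (hu : IsStronglyProgressive B.F u) :
    Measurable fun z : ℝ × Ω => ext u z.1 z.2 := by
  unfold ext
  refine Measurable.ite (measurableSet_lt measurable_const measurable_fst) ?_ measurable_const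
  exact (prog_joint hu).measurable.comp
    ((measurable_real_toNNReal.comp measurable_fst).prodMk measurable_snd)

lemma lint_ext (f : ℝ≥0 → ℝ≥0∞) :
    ∫⁻ s : ℝ, (if 0 < s then f s.toNNReal else 0) = ∫⁻ s, f s ∂lam := by
  have h1 := lintegral_lam fun x : ℝ => f x.toNNReal
  simp only [Real.toNNReal_coe] at h1
  rw [h1, ← lintegral_indicator measurableSet_Ioi]
  refine lintegral_congr fun s => ?_
  simp only [indicator, mem_Ioi]

lemma prim_ext (u : ℝ≥0 → Ω → ℝ) (t : ℝ) (ω : Ω) :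
    prim (ext u) t ω = ∫ s in Iic t.toNNReal, u s ω ∂lam := by
  have h1 := integral_Iic_lam (fun x : ℝ => u x.toNNReal ω) t.toNNReal
  simp only [Real.toNNReal_coe] at h1
  rw [h1]
  unfold prim
  rcases le_total 0 t with ht | ht
  · rw [Real.coe_toNNReal _ ht, intervalIntegral.integral_of_le ht, integral_Ioc_eq_integral_Ioo]
    exact setIntegral_congr_fun measurableSet_Ioo fun s hs => ext_pos u hs.1 ω
  · rw [Real.toNNReal_of_nonpos ht, NNReal.coe_zero, Ioo_self, setIntegral_empty,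
      intervalIntegral.integral_of_ge ht, neg_eq_zero]
    refine setIntegral_eq_zero_of_forall_eq_zero fun s hs => ?_
    unfold ext
    rw [if_neg (not_lt.2 hs.2)]

lemma XX_ext (x : ℝ) (a M : ℝ≥0 → Ω → ℝ) (t : ℝ) (ω : Ω) :
    XX x (ext a) (extM M) t ω = XR x a M t ω := by
  unfold XX XR extM
  rw [prim_ext]

lemma int_cut {S : Ω → ℝ≥0∞} {b : ℝ≥0 → Ω → ℝ}
    (kb : ∀ (t : ℝ≥0) ω, S ω ≤ t → b t ω = 0) (v : ℝ≥0) (ω : Ω) :
    ∫ s in Iic (cutT v (S ω)), b s ω ^ 2 ∂lam = ∫ s in Iic v, b s ω ^ 2 ∂lam := by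
  refine (setIntegral_eq_of_subset_of_forall_sdiff_eq_zero measurableSet_Iic
    (Iic_subset_Iic.2 (cutT_le v (S ω))) fun s hs => ?_).symm
  have h1 : s ≤ v := hs.1
  have h2 : ¬ s ≤ cutT v (S ω) := hs.2
  rw [le_cutT] at h2
  have h3 : S ω ≤ s := by
    by_contra h4
    exact h2 ⟨h1, (not_le.1 h4).le⟩
  rw [kb s ω h3]
  simp

theorem ItoData.toIto {S : Ω → ℝ≥0∞} {K : ℝ} {a b M : ℝ≥0 → Ω → ℝ} (h : ItoData B S K a b M) :
    Ito B.P B.F (max K 0) (ext a) (ext b) (extM M) := by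
  have hb : ∀ u : ℝ≥0 → Ω → ℝ, (fun s ω => ext u s ω ^ 2) = ext (fun s ω => u s ω ^ 2) := by
    intro u
    funext s ω
    unfold ext
    split_ifs <;> simp
  have hm : ∀ t : ℝ≥0, StronglyMeasurable[B.F t] (M t) := fun t => by
    have h1 := (h.mart S h.stop fun ω => le_rfl).1.1 t
    convert h1 using 1
    funext ω
    exact (h.stop_M t ω).symm
  have hK : ENNReal.ofReal K ≤ ENNReal.ofReal (max K 0) := ENNReal.ofReal_le_ofReal (le_max_left _ _)
  refine ⟨le_max_right _ _, ⟨ext_meas h.prog_a, fun ω => ?_⟩, ext_meas h.prog_b,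
    ⟨(ext_meas h.prog_b).pow_const 2, fun ω => ?_⟩, fun ω => ?_, fun ω => ?_, fun t => ?_,
    fun t => ?_, fun ρ hρ => ?_⟩
  · refine le_trans (le_of_eq ?_) ((h.bdd_a ω).trans hK)
    rw [← lint_ext]
    refine lintegral_congr fun s => ?_
    unfold ext
    split_ifs <;> simp
  · refine le_trans (le_of_eq ?_) ((h.bdd_b ω).trans hK)
    rw [← lint_ext]
    refine lintegral_congr fun s => ?_
    unfold ext
    split_ifs <;> simp
  · exact (h.cont_M ω).comp continuous_real_toNNReal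
  · unfold extM
    rw [Real.toNNReal_zero]
    exact h.zero_M ω
  · exact (hm t.toNNReal).measurable.mono (B.F.le _) le_rfl
  · have h1 := prog_integral h.prog_a t
    convert h1 using 1
    funext ω
    rw [prim_ext, Real.toNNReal_coe]
  · have hρ' : IsStop B fun ω => ENNReal.ofReal (ρ ω) := fun t => by
      have := hρ.meas t
      convert this using 1
      ext ω
      simp only [mem_ofPred_eq]
      rw [ENNReal.ofReal_le_coe]
    have hst := hρ'.inf h.stop
    obtain ⟨h1, h2⟩ := h.mart _ hst fun ω => min_le_right _ _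
    have e1 : ∀ (t : ℝ≥0) ω, cutT t (ENNReal.ofReal (ρ ω)) = (min (t : ℝ) (ρ ω)).toNNReal := by
      intro t ω
      have h3 : ENNReal.ofReal (ρ ω) = ((ρ ω).toNNReal : ℝ≥0∞) := rfl
      rw [h3, cutT_coe, Monotone.map_min Real.toNNReal_monotone, Real.toNNReal_coe]
    have e2 : ∀ (t : ℝ≥0) ω, cutT t (min (ENNReal.ofReal (ρ ω)) (S ω)) =
        cutT (min (t : ℝ) (ρ ω)).toNNReal (S ω) := by
      intro t ω
      rw [← cutT_cutT, e1]
    have e3 : ∀ (t : ℝ≥0) ω, M (cutT t (min (ENNReal.ofReal (ρ ω)) (S ω))) ω =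
        extM M (min (t : ℝ) (ρ ω)) ω := by
      intro t ω
      rw [e2, h.stop_M]
      rfl
    have e4 : ∀ (t : ℝ≥0) ω, ∫ s in Iic (cutT t (min (ENNReal.ofReal (ρ ω)) (S ω))), b s ω ^ 2 ∂lam =
        prim (fun s ω => ext b s ω ^ 2) (min (t : ℝ) (ρ ω)) ω := by
      intro t ω
      rw [e2, int_cut h.kill_b, hb, prim_ext]
    simp only [e3] at h1
    simp only [e3, e4] at h2
    exact ⟨h1, h2⟩

lemma ext_ad {a : ℝ≥0 → Ω → ℝ} (ha : IsStronglyProgressive B.F a) (s : ℝ≥0) :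
    StronglyMeasurable[B.F s] (ext a s) := by
  unfold ext
  by_cases hs : (0 : ℝ) < s
  · have h1 := ha.stronglyAdapted s
    convert h1 using 1
    funext ω
    rw [if_pos hs, Real.toNNReal_coe]
  · simp only [if_neg hs]
    exact stronglyMeasurable_const

theorem ItoData.dynkin {S : Ω → ℝ≥0∞} {K : ℝ}
    {a b M : ℝ≥0 → Ω → ℝ} (h : ItoData B S K a b M) (x : ℝ) : DynkinFor B x a b M := by
  intro j L hj hb t ht
  have hP := B.isProb
  have hJ : JC j L := ⟨hj, fun s => (hb s).1, fun s => (hb s).2.1, fun s => (hb s).2.2⟩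
  obtain ⟨h1, h2⟩ := h.toIto.dynkin x ht hJ
  simp only [XX_ext] at h1 h2
  refine ⟨h1.congr ((ae_fst (P := B.P) (p := fun s => 0 < s) fun s hs => hs.1).mono
    fun z hz => ?_), h2.trans ?_⟩
  · simp only [ext_pos _ hz]
  · congr 1
    rw [← prod_res]
    refine integral_congr_ae ((ae_fst (P := B.P) (p := fun s => 0 < s) fun s hs => hs.1).mono
      fun z hz => ?_)
    simp only [ext_pos _ hz]

theorem ItoData.product {S : Ω → ℝ≥0∞}
    {K K' K'' : ℝ} {a b M a' b' M' : ℝ≥0 → Ω → ℝ} (h : ItoData B S K a b M)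
    (h' : ItoData B S K' a' b' M')
    (hs : ItoData B S K'' (fun t ω => a t ω + a' t ω) (fun t ω => b t ω + b' t ω)
      (fun t ω => M t ω + M' t ω)) (x x' : ℝ) : ProductFor B S x x' a b M a' b' M' := by
  intro η hη t ht
  have hP := B.isProb
  have hSt : ∀ ω, S ω ≠ ∞ := fun ω => ((h.le_one ω).trans_lt ENNReal.one_lt_top).ne
  have ead : ∀ u v : ℝ≥0 → Ω → ℝ, ext (fun t ω => u t ω + v t ω) = fun s ω => ext u s ω + ext v s ω := by
    intro u v
    funext s ω
    unfold ext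
    split_ifs <;> simp
  have hI := hs.toIto
  rw [ead, ead] at hI
  have hle : ∀ (s : ℝ) ω, 0 ≤ s → (S ω).toReal ≤ s → S ω ≤ s.toNNReal := by
    intro s ω h0 h1
    rw [← ENNReal.ofReal_toReal (hSt ω)]
    exact ENNReal.ofReal_le_ofReal h1
  have kill : ∀ u : ℝ≥0 → Ω → ℝ, (∀ (t : ℝ≥0) ω, S ω ≤ t → u t ω = 0) →
      ∀ s ω, 0 < s → (S ω).toReal ≤ s → ext u s ω = 0 := by
    intro u hu s ω h0 h1
    rw [ext_pos _ h0]
    exact hu _ ω (hle s ω h0.le h1)
  have stop : ∀ N : ℝ≥0 → Ω → ℝ, (∀ t ω, N (cutT t (S ω)) ω = N t ω) →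
      ∀ s t ω, 0 ≤ s → s ≤ t → t ≤ 1 → (S ω).toReal ≤ s → extM N t ω = extM N s ω := by
    intro N hN s t ω h0 h1 h2 h3
    unfold extM
    rw [← hN t.toNNReal, ← hN s.toNNReal]
    have e : ∀ r : ℝ, 0 ≤ r → (S ω).toReal ≤ r → cutT r.toNNReal (S ω) = (S ω).toNNReal := by
      intro r hr hr'
      unfold cutT
      rw [min_eq_right (hle r ω hr hr')]
    rw [e t (h0.trans h1) (h3.trans h1), e s h0 h3]
  obtain ⟨h1, h2⟩ := h.toIto.product h'.toIto hI (ext_ad h.prog_a) (ext_ad h'.prog_a)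
    (S := fun ω => (S ω).toReal) h.stop.measurable.ennreal_toReal (fun ω => ENNReal.toReal_nonneg)
    (stop M h.stop_M) (stop M' h'.stop_M) (kill a h.kill_a) (kill b h.kill_b) (kill a' h'.kill_a)
    x x' hη ht
  have hind : ∀ z : ℝ × Ω, ind (fun ω => (S ω).toReal) z =
      if z.1 < (S z.2).toReal then 1 else 0 := fun z => by
    unfold ind
    split_ifs <;> rfl
  simp only [XX_ext, hind] at h1 h2
  refine ⟨h1.congr ((ae_fst (P := B.P) (p := fun s => 0 < s) fun s hs => hs.1).mono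
    fun z hz => ?_), h2.trans ?_⟩
  · simp only [ext_pos _ hz]
  · congr 1
    rw [← prod_res]
    refine integral_congr_ae ((ae_fst (P := B.P) (p := fun s => 0 < s) fun s hs => hs.1).mono
      fun z hz => ?_)
    simp only [ext_pos _ hz]

end Pool.Agent.W_332fe5
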