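import Mathlib

set_option autoImplicit false
set_option linter.unusedSectionVars false

/-!
Ito's formula in expectation, part C: Riemann sums.
-/

open MeasureTheory ProbabilityTheory Set Filter Topology Finset
open scoped ENNReal NNReal

namespace Pool.Agent.W_332fe5

/-- the partition point to the left of `s` -/
noncomputable def kap (t : ℝ) (n : ℕ) (s : ℝ) : ℝ := t * ⌊s * n / t⌋₊ / n

/-- the partition points -/
noncomputable def pt (t : ℝ) (n k : ℕ) : ℝ := t * k / n

lemma pt_zero (t : ℝ) (n : ℕ) : pt t n 0 = 0 := by simp [pt]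

lemma pt_last (t : ℝ) {n : ℕ} (hn : 1 ≤ n) : pt t n n = t := by
  have : (n : ℝ) ≠ 0 := by positivity
  simp [pt, this]

lemma pt_mono {t : ℝ} (ht : 0 < t) (n : ℕ) : Monotone (pt t n) := fun a b hab => by
  unfold pt
  have : (a : ℝ) ≤ b := by exact_mod_cast hab
  gcongr

lemma pt_succ_sub {t : ℝ} {n k : ℕ} : pt t n (k + 1) - pt t n k = t / n := by
  unfold pt; push_cast; ring

lemma kap_eq {t : ℝ} (ht : 0 < t) {n : ℕ} (hn : 1 ≤ n) {k : ℕ} {s : ℝ} (h1 : pt t n k ≤ s)
    (h2 : s < pt t n (k + 1)) : kap t n s = pt t n k := by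
  have hn0 : (0 : ℝ) < n := by exact_mod_cast hn
  have : ⌊s * n / t⌋₊ = k := by
    unfold pt at h1 h2
    have hk : (0 : ℝ) ≤ k := by positivity
    have hs : 0 ≤ s := le_trans (by positivity) h1
    rw [Nat.floor_eq_iff (by positivity)]
    constructor
    · rw [le_div_iff₀ ht]
      rw [div_le_iff₀ hn0] at h1
      linarith
    · rw [div_lt_iff₀ ht]
      rw [lt_div_iff₀ hn0] at h2
      push_cast at h2
      linarith
  unfold kap pt
  rw [this]

lemma kap_dist {t : ℝ} (ht : 0 < t) {n : ℕ} (hn : 1 ≤ n) {s : ℝ} (hs : 0 ≤ s) :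
    |kap t n s - s| ≤ t / n := by
  have hn0 : (0 : ℝ) < n := by exact_mod_cast hn
  unfold kap
  have h1 : (⌊s * n / t⌋₊ : ℝ) ≤ s * n / t := Nat.floor_le (by positivity)
  have h2 : s * n / t < ⌊s * n / t⌋₊ + 1 := Nat.lt_floor_add_one _
  rw [le_div_iff₀ ht] at h1
  rw [div_lt_iff₀ ht] at h2
  have e : t * (⌊s * n / t⌋₊ : ℝ) / n - s = (t * ⌊s * n / t⌋₊ - s * n) / n := by field_simp
  rw [e, abs_div, abs_of_pos hn0]
  refine div_le_div_of_nonneg_right ?_ hn0.le
  rw [abs_le]
  constructor <;> nlinarith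

lemma kap_tendsto {t : ℝ} (ht : 0 < t) {s : ℝ} (hs : 0 ≤ s) :
    Tendsto (fun n : ℕ => kap t n s) atTop (𝓝 s) := by
  rw [tendsto_iff_dist_tendsto_zero]
  have h : Tendsto (fun n : ℕ => t / n) atTop (𝓝 0) := tendsto_const_div_atTop_nhds_zero_nat t
  refine squeeze_zero' (Eventually.of_forall fun _ => dist_nonneg) ?_ h
  filter_upwards [eventually_ge_atTop 1] with n hn
  rw [Real.dist_eq]
  exact kap_dist ht hn hs

lemma kap_meas (t : ℝ) (n : ℕ) : Measurable (kap t n) := by
  unfold kap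
  fun_prop

/-- a Riemann sum as an integral -/
lemma riem_sum {t : ℝ} (ht : 0 < t) {n : ℕ} (hn : 1 ≤ n) (g f : ℝ → ℝ) (hf : Integrable f) :
    ∑ k ∈ range n, g (pt t n k) * ((∫ s in (0 : ℝ)..pt t n (k + 1), f s) -
      ∫ s in (0 : ℝ)..pt t n k, f s) = ∫ s in (0 : ℝ)..t, g (kap t n s) * f s := by
  have hi : ∀ a b : ℝ, IntervalIntegrable f volume a b := fun a b => hf.intervalIntegrable
  have hle : ∀ k, pt t n k ≤ pt t n (k + 1) := fun k => pt_mono ht n (Nat.le_succ k)
  have hcongr : ∀ k, (fun s => g (pt t n k) * f s) =ᵐ[volume.restrict (Ioc (pt t n k) (pt t n (k + 1)))]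
      fun s => g (kap t n s) * f s := fun k => by
    have hne : ∀ᵐ s ∂(volume : Measure ℝ), s ≠ pt t n (k + 1) := by
      simp [ae_iff, measure_singleton]
    filter_upwards [ae_restrict_mem measurableSet_Ioc, ae_restrict_of_ae hne] with s hs hs'
    rw [kap_eq ht hn hs.1.le (lt_of_le_of_ne hs.2 hs')]
  have hint : ∀ k < n, IntervalIntegrable (fun s => g (kap t n s) * f s) volume (pt t n k)
      (pt t n (k + 1)) := fun k _ => by
    rw [intervalIntegrable_iff_integrableOn_Ioc_of_le (hle k)]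
    have := (intervalIntegrable_iff_integrableOn_Ioc_of_le (hle k)).1
      ((hi (pt t n k) (pt t n (k + 1))).const_mul (g (pt t n k)))
    exact this.congr (hcongr k)
  have h1 := intervalIntegral.sum_integral_adjacent_intervals hint
  rw [pt_zero, pt_last t hn] at h1
  rw [← h1]
  refine Finset.sum_congr rfl fun k _ => ?_
  rw [intervalIntegral.integral_interval_sub_left (hi _ _) (hi _ _),
    ← intervalIntegral.integral_const_mul, intervalIntegral.integral_of_le (hle k),
    intervalIntegral.integral_of_le (hle k)]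
  exact integral_congr_ae (hcongr k)

variable {Ω : Type} [mΩ : MeasurableSpace Ω] {P : Measure Ω} [IsProbabilityMeasure P]

/-- densities with uniformly bounded total mass -/
structure Dens (K : ℝ) (f : ℝ → Ω → ℝ) : Prop where
  meas : Measurable fun z : ℝ × Ω => f z.1 z.2
  bdd : ∀ ω, ∫⁻ s, ‖f s ω‖ₑ ≤ ENNReal.ofReal K

variable {K : ℝ} {f : ℝ → Ω → ℝ}

lemma Dens.int (h : Dens K f) (ω : Ω) : Integrable (fun s => f s ω) :=
  ⟨(h.meas.comp (measurable_id.prodMk measurable_const)).aestronglyMeasurable,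
    (h.bdd ω).trans_lt ENNReal.ofReal_lt_top⟩

lemma Dens.prod (h : Dens K f) : Integrable (fun z : ℝ × Ω => f z.1 z.2) (volume.prod P) := by
  refine ⟨h.meas.aestronglyMeasurable, ?_⟩
  unfold HasFiniteIntegral
  rw [lintegral_prod_symm _ h.meas.enorm.aemeasurable]
  refine (lintegral_mono (h.bdd)).trans_lt ?_
  simp

/-- the primitive -/
noncomputable def prim (f : ℝ → Ω → ℝ) (t : ℝ) (ω : Ω) : ℝ := ∫ s in (0 : ℝ)..t, f s ω

lemma prim_zero (f : ℝ → Ω → ℝ) (ω : Ω) : prim f 0 ω = 0 := by simp [prim]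

lemma Dens.prim_cont (h : Dens K f) (ω : Ω) : Continuous fun t => prim f t ω :=
  intervalIntegral.continuous_primitive (fun _ _ => (h.int ω).intervalIntegrable) 0

lemma Dens.abs_le (h : Dens K f) (hK : 0 ≤ K) (ω : Ω) : ∫ s, |f s ω| ≤ K := by
  have h1 : ∫ s, ‖f s ω‖ = (∫⁻ s, ‖f s ω‖ₑ).toReal := integral_norm_eq_lintegral_enorm
    (h.int ω).aestronglyMeasurable
  simp only [Real.norm_eq_abs] at h1
  rw [h1]
  exact ENNReal.toReal_le_of_le_ofReal hK (h.bdd ω)

lemma Dens.prim_le (h : Dens K f) (hK : 0 ≤ K) (t : ℝ) (ω : Ω) : |prim f t ω| ≤ K := by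
  unfold prim
  refine (intervalIntegral.norm_integral_le_integral_norm_uIoc (f := fun s => f s ω)).trans ?_
  refine le_trans ?_ (h.abs_le hK ω)
  simp only [Real.norm_eq_abs]
  exact setIntegral_le_integral (h.int ω).abs (ae_of_all _ fun _ => abs_nonneg _)

lemma Dens.prim_meas (h : Dens K f) (t : ℝ) : Measurable (prim f t) := by
  unfold prim
  simp only [intervalIntegral.intervalIntegral_eq_integral_uIoc]
  have h1 : StronglyMeasurable fun z : Ω × ℝ => f z.2 z.1 :=
    (h.meas.comp measurable_swap).stronglyMeasurable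
  exact Measurable.const_smul
    (h1.integral_prod_right' (ν := volume.restrict (Set.uIoc 0 t))).measurable
    (if (0 : ℝ) ≤ t then (1 : ℝ) else -1)

/-- the variation along a partition -/
lemma Dens.var_le (h : Dens K f) (hK : 0 ≤ K) {t : ℝ} (ht : 0 < t) (n : ℕ) (ω : Ω) :
    ∑ k ∈ range n, |prim f (pt t n (k + 1)) ω - prim f (pt t n k) ω| ≤ K := by
  have hi : ∀ a b : ℝ, IntervalIntegrable (fun s => f s ω) volume a b :=
    fun a b => (h.int ω).intervalIntegrable
  have hle : ∀ k, pt t n k ≤ pt t n (k + 1) := fun k => pt_mono ht n (Nat.le_succ k)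
  have e : ∀ k, |prim f (pt t n (k + 1)) ω - prim f (pt t n k) ω| ≤
      ∫ s in (pt t n k)..(pt t n (k + 1)), |f s ω| := fun k => by
    unfold prim
    rw [intervalIntegral.integral_interval_sub_left (hi _ _) (hi _ _)]
    exact intervalIntegral.abs_integral_le_integral_abs (hle k)
  refine (Finset.sum_le_sum fun k _ => e k).trans ?_
  rw [intervalIntegral.sum_integral_adjacent_intervals (a := pt t n)
    (f := fun s => |f s ω|) (fun k _ => (hi _ _).abs),
    intervalIntegral.integral_of_le (pt_mono ht n (Nat.zero_le n))]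
  exact (setIntegral_le_integral (h.int ω).abs (ae_of_all _ fun _ => abs_nonneg _)).trans
    (h.abs_le hK ω)

/-- convergence of the Riemann sums, in expectation -/
theorem riem_lim (h : Dens K f) {t : ℝ} (ht : 0 < t) {G : ℝ → Ω → ℝ} {C : ℝ}
    (hG : Measurable fun z : ℝ × Ω => G z.1 z.2) (hGb : ∀ s ω, |G s ω| ≤ C)
    (hGc : ∀ ω, Continuous fun s => G s ω) :
    Tendsto (fun n : ℕ => ∫ ω, ∑ k ∈ range n, G (pt t n k) ω *
      (prim f (pt t n (k + 1)) ω - prim f (pt t n k) ω) ∂P) atTop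
      (𝓝 (∫ z, G z.1 z.2 * f z.1 z.2 ∂((volume.restrict (Ioo 0 t)).prod P))) := by
  have hrestr : (volume.restrict (Ioo 0 t) : Measure ℝ) = volume.restrict (Ioc 0 t) :=
    Measure.restrict_congr_set Ioo_ae_eq_Ioc
  rw [hrestr]
  have hfi : Integrable (fun z : ℝ × Ω => f z.1 z.2) ((volume.restrict (Ioc 0 t)).prod P) := by
    refine (h.prod (P := P)).mono_measure ?_
    exact Measure.prod_mono Measure.restrict_le_self le_rfl
  have hGk : ∀ n, Measurable fun z : ℝ × Ω => G (kap t n z.1) z.2 := fun n =>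
    hG.comp (((kap_meas t n).comp measurable_fst).prodMk measurable_snd)
  have hbd : ∀ n, Integrable (fun z : ℝ × Ω => G (kap t n z.1) z.2 * f z.1 z.2)
      ((volume.restrict (Ioc 0 t)).prod P) := fun n =>
    hfi.bdd_mul (hGk n).aestronglyMeasurable (c := C) (ae_of_all _ fun z => hGb _ _)
  have hEq : ∀ᶠ n : ℕ in atTop, ∫ z, G (kap t n z.1) z.2 * f z.1 z.2
      ∂((volume.restrict (Ioc 0 t)).prod P) = ∫ ω, ∑ k ∈ range n, G (pt t n k) ω *
      (prim f (pt t n (k + 1)) ω - prim f (pt t n k) ω) ∂P := by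
    filter_upwards [eventually_ge_atTop 1] with n hn
    rw [integral_prod_symm _ (hbd n)]
    refine integral_congr_ae (ae_of_all _ fun ω => ?_)
    simp only [prim]
    rw [riem_sum ht hn (fun s => G s ω) (fun s => f s ω) (h.int ω),
      intervalIntegral.integral_of_le ht.le]
  refine Tendsto.congr' hEq ?_
  refine tendsto_integral_of_dominated_convergence (fun z => C * |f z.1 z.2|)
    (fun n => (hbd n).aestronglyMeasurable) (hfi.abs.const_mul C) (fun n => ae_of_all _ fun z => ?_)
    ?_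
  · rw [norm_mul]
    exact mul_le_mul_of_nonneg_right (hGb _ _) (abs_nonneg _)
  · have hpos : ∀ᵐ z : ℝ × Ω ∂((volume.restrict (Ioc 0 t)).prod P), 0 < z.1 := by
      have := (Measure.quasiMeasurePreserving_fst (μ := volume.restrict (Ioc (0 : ℝ) t)) (ν := P)).ae
        (p := fun s : ℝ => 0 < s) (by
          filter_upwards [ae_restrict_mem measurableSet_Ioc] with s hs using hs.1)
      exact this
    filter_upwards [hpos] with z hz
    exact (((hGc z.2).tendsto z.1).comp (kap_tendsto ht hz.le)).mul_const _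

end Pool.Agent.W_332fe5
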