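import Pool.Agent.W_332fe5_ito.A
import Pool.Agent.W_332fe5_ito.B
import Pool.Agent.W_332fe5_ito.C

set_option autoImplicit false
set_option linter.unusedSectionVars false

/-!
Ito's formula in expectation, part D: bounded martingales.
-/

open MeasureTheory ProbabilityTheory Set Filter Topology Finset
open scoped ENNReal NNReal

namespace Pool.Agent.W_332fe5

variable {Ω : Type} [mΩ : MeasurableSpace Ω] {P : Measure Ω} [IsProbabilityMeasure P]
  {F : Filtration ℝ≥0 mΩ}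

/-- `E (δₙ Sₙ) → 0` if `δₙ → 0` boundedly and `Sₙ` is bounded in `L²` -/
lemma prod_tendsto {δ S : ℕ → Ω → ℝ} {C B : ℝ} (hδm : ∀ n, Measurable (δ n))
    (hSm : ∀ n, Measurable (S n)) (hδ0 : ∀ n ω, 0 ≤ δ n ω) (hδ1 : ∀ n ω, δ n ω ≤ C)
    (hS0 : ∀ n ω, 0 ≤ S n ω) (hS1 : ∀ n, ∃ c, ∀ ω, S n ω ≤ c)
    (hδ : ∀ ω, Tendsto (fun n => δ n ω) atTop (𝓝 0)) (hB : ∀ n, ∫ ω, S n ω ^ 2 ∂P ≤ B) :
    Tendsto (fun n => ∫ ω, δ n ω * S n ω ∂P) atTop (𝓝 0) := by
  have hδ2 : Tendsto (fun n => ∫ ω, δ n ω ^ 2 ∂P) atTop (𝓝 0) := by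
    have h1 : Tendsto (fun n => ∫ ω, δ n ω ^ 2 ∂P) atTop (𝓝 (∫ _ : Ω, (0 : ℝ) ∂P)) := by
      refine tendsto_integral_of_dominated_convergence (fun _ => C ^ 2)
        (fun n => ((hδm n).pow_const 2).aestronglyMeasurable) (integrable_const _)
        (fun n => ae_of_all _ fun ω => ?_) (ae_of_all _ fun ω => ?_)
      · rw [Real.norm_eq_abs, abs_of_nonneg (sq_nonneg _)]
        exact pow_le_pow_left₀ (hδ0 n ω) (hδ1 n ω) 2
      · simpa using (hδ ω).pow 2
    simpa using h1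
  have hB0 : 0 ≤ B := (integral_nonneg fun ω => sq_nonneg _).trans (hB 0)
  have key : ∀ n (c : ℝ), 0 < c → ∫ ω, δ n ω * S n ω ∂P ≤
      c⁻¹ * ∫ ω, δ n ω ^ 2 ∂P + c * B := fun n c hc => by
    obtain ⟨s, hs⟩ := hS1 n
    have i1 : Integrable (fun ω => δ n ω ^ 2) P :=
      int_bdd ((hδm n).pow_const 2) (C := C ^ 2) fun ω => by
        rw [abs_of_nonneg (sq_nonneg _)]; exact pow_le_pow_left₀ (hδ0 n ω) (hδ1 n ω) 2
    have i2 : Integrable (fun ω => S n ω ^ 2) P :=
      int_bdd ((hSm n).pow_const 2) (C := s ^ 2) fun ω => by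
        rw [abs_of_nonneg (sq_nonneg _)]; exact pow_le_pow_left₀ (hS0 n ω) (hs ω) 2
    calc ∫ ω, δ n ω * S n ω ∂P ≤ ∫ ω, (c⁻¹ * δ n ω ^ 2 + c * S n ω ^ 2) ∂P := by
          refine integral_mono_of_nonneg (ae_of_all _ fun ω => mul_nonneg (hδ0 n ω) (hS0 n ω))
            ((i1.const_mul _).add (i2.const_mul _)) (ae_of_all _ fun ω => ?_)
          have e1 : c⁻¹ * δ n ω ^ 2 + c * S n ω ^ 2 - 2 * (δ n ω * S n ω) =
              c⁻¹ * (δ n ω - c * S n ω) ^ 2 := by field_simp; ring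
          have e2 : 0 ≤ c⁻¹ * (δ n ω - c * S n ω) ^ 2 := by positivity
          have e3 := mul_nonneg (hδ0 n ω) (hS0 n ω)
          simp only
          linarith
      _ = c⁻¹ * ∫ ω, δ n ω ^ 2 ∂P + c * ∫ ω, S n ω ^ 2 ∂P := by
          rw [integral_add (i1.const_mul _) (i2.const_mul _), integral_const_mul,
            integral_const_mul]
      _ ≤ _ := by
          have := mul_le_mul_of_nonneg_left (hB n) hc.le
          linarith
  rw [Metric.tendsto_atTop]
  intro ε hε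
  set c : ℝ := ε / (2 * (B + 1)) with hc
  have hc0 : 0 < c := by positivity
  have h1 := (hδ2.const_mul c⁻¹)
  rw [mul_zero] at h1
  obtain ⟨n₀, hn₀⟩ := (Metric.tendsto_atTop.1 h1) (ε / 2) (by positivity)
  refine ⟨n₀, fun n hn => ?_⟩
  have h2 := hn₀ n hn
  rw [Real.dist_eq, sub_zero] at h2 ⊢
  have h3 := key n c hc0
  have h4 : 0 ≤ ∫ ω, δ n ω * S n ω ∂P := integral_nonneg fun ω => mul_nonneg (hδ0 n ω) (hS0 n ω)
  rw [abs_of_nonneg h4]
  have h5 : c * B ≤ ε / 2 := by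
    rw [hc, div_mul_eq_mul_div, div_le_div_iff₀ (by positivity) (by norm_num)]
    nlinarith
  have h6 := le_abs_self (c⁻¹ * ∫ ω, δ n ω ^ 2 ∂P)
  linarith

/-- bounded continuous semimartingales -/
structure ItoB (P : Measure Ω) (F : Filtration ℝ≥0 mΩ) (N K : ℝ) (a q M : ℝ → Ω → ℝ) : Prop where
  hK : 0 ≤ K
  da : Dens K a
  dq : Dens K q
  cont : ∀ ω, Continuous fun t => M t ω
  zero : ∀ ω, M 0 ω = 0
  meas : ∀ t, Measurable (M t)
  bdd : ∀ t ω, |M t ω| ≤ N
  ad : ∀ t : ℝ≥0, StronglyMeasurable[F t] fun ω => prim a t ω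
  mart : Martingale (fun (t : ℝ≥0) ω => M t ω) F P
  mart2 : Martingale (fun (t : ℝ≥0) ω => M t ω ^ 2 - prim q t ω) F P

/-- the semimartingale -/
noncomputable def XX (x : ℝ) (a M : ℝ → Ω → ℝ) (t : ℝ) (ω : Ω) : ℝ := x + prim a t ω + M t ω

variable {N K : ℝ} {a q M : ℝ → Ω → ℝ}

/-- the partition points in `ℝ≥0` -/
noncomputable def ptn (t : ℝ) (n k : ℕ) : ℝ≥0 := (pt t n k).toNNReal

lemma ptn_coe {t : ℝ} (ht : 0 < t) (n k : ℕ) : (ptn t n k : ℝ) = pt t n k :=
  Real.coe_toNNReal _ (by unfold pt; positivity)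

lemma ItoB.samp (h : ItoB P F N K a q M) {t : ℝ} (ht : 0 < t) (n : ℕ) :
    Samp P F (ptn t n) N (fun k => M (pt t n k)) where
  mono := fun _ _ hab => Real.toNNReal_le_toNNReal (pt_mono ht n hab)
  ad := fun k => by
    have := h.mart.stronglyMeasurable (ptn t n k)
    rwa [ptn_coe ht] at this
  bdd := fun k => h.bdd _
  zero := fun ω => by rw [pt_zero]; exact h.zero ω
  orth := fun k Y C hY hC => by
    have hle : ptn t n k ≤ ptn t n (k + 1) :=
      Real.toNNReal_le_toNNReal (pt_mono ht n (Nat.le_succ k))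
    have h1 := mart_mul h.mart hle hY hC
    simp only [ptn_coe ht] at h1
    have hYm : Measurable Y := (hY.mono (F.le _)).measurable
    have i : ∀ s, Integrable (fun ω => Y ω * M s ω) P := fun s =>
      int_bdd (hYm.mul (h.meas s)) (C := C * N) fun ω => by
        rw [abs_mul]
        exact mul_le_mul (hC ω) (h.bdd s ω) (abs_nonneg _) ((abs_nonneg _).trans (hC ω))
    simp_rw [mul_sub]
    rw [integral_sub (i _) (i _), h1, sub_self]

lemma ItoB.xad (h : ItoB P F N K a q M) (x : ℝ) {t : ℝ} (ht : 0 < t) (n k : ℕ) :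
    StronglyMeasurable[F (ptn t n k)] (XX x a M (pt t n k)) := by
  have h1 := h.mart.stronglyMeasurable (ptn t n k)
  have h2 := h.ad (ptn t n k)
  rw [ptn_coe ht] at h1 h2
  exact (stronglyMeasurable_const.add h2).add h1

lemma ItoB.quad (h : ItoB P F N K a q M) {t : ℝ} (ht : 0 < t) (n k : ℕ) {Y : Ω → ℝ}
    (hY : StronglyMeasurable[F (ptn t n k)] Y) {C : ℝ} (hC : ∀ ω, |Y ω| ≤ C) :
    ∫ ω, Y ω * (M (pt t n (k + 1)) ω - M (pt t n k) ω) ^ 2 ∂P =
      ∫ ω, Y ω * (prim q (pt t n (k + 1)) ω - prim q (pt t n k) ω) ∂P := by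
  have hs := h.samp ht n
  have hle : ptn t n k ≤ ptn t n (k + 1) :=
    Real.toNNReal_le_toNNReal (pt_mono ht n (Nat.le_succ k))
  have h1 := mart_mul h.mart2 hle hY hC
  simp only [ptn_coe ht] at h1
  have h2 := hs.orth k (fun ω => Y ω * M (pt t n k) ω) (C * N) (hY.mul (hs.ad k)) fun ω => by
    rw [abs_mul]
    exact mul_le_mul (hC ω) (h.bdd _ ω) (abs_nonneg _) ((abs_nonneg _).trans (hC ω))
  have hYm : Measurable Y := (hY.mono (F.le _)).measurable
  have hM2 : ∀ s ω, |M s ω ^ 2| ≤ N ^ 2 := fun s ω => by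
    rw [abs_pow]; exact pow_le_pow_left₀ (abs_nonneg _) (h.bdd s ω) 2
  have iM : ∀ s, Integrable (fun ω => Y ω * M s ω ^ 2) P := fun s =>
    int_bdd (hYm.mul ((h.meas s).pow_const 2)) (C := C * N ^ 2) fun ω => by
      rw [abs_mul]
      exact mul_le_mul (hC ω) (hM2 s ω) (abs_nonneg _) ((abs_nonneg _).trans (hC ω))
  have iQ : ∀ s, Integrable (fun ω => Y ω * prim q s ω) P := fun s =>
    int_bdd (hYm.mul (h.dq.prim_meas s)) (C := C * K) fun ω => by
      rw [abs_mul]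
      exact mul_le_mul (hC ω) (h.dq.prim_le h.hK s ω) (abs_nonneg _) ((abs_nonneg _).trans (hC ω))
  have hD : Measurable fun ω => M (pt t n (k + 1)) ω - M (pt t n k) ω :=
    (h.meas _).sub (h.meas _)
  have iO : Integrable (fun ω => Y ω * M (pt t n k) ω *
      (M (pt t n (k + 1)) ω - M (pt t n k) ω)) P :=
    int_bdd ((hYm.mul (h.meas _)).mul hD) (C := C * N * (2 * N)) fun ω => by
      rw [abs_mul, abs_mul]
      have hC0 := (abs_nonneg _).trans (hC ω)
      have hN0 := (abs_nonneg _).trans (h.bdd (pt t n k) ω)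
      exact mul_le_mul (mul_le_mul (hC ω) (h.bdd _ ω) (abs_nonneg _) hC0) (hs.dbdd k ω)
        (abs_nonneg _) (by positivity)
  simp_rw [mul_sub] at h1
  rw [integral_sub (iM _) (iQ _), integral_sub (iM _) (iQ _)] at h1
  have e : ∀ ω, Y ω * (M (pt t n (k + 1)) ω - M (pt t n k) ω) ^ 2 =
      Y ω * M (pt t n (k + 1)) ω ^ 2 - Y ω * M (pt t n k) ω ^ 2 -
      2 * (Y ω * M (pt t n k) ω * (M (pt t n (k + 1)) ω - M (pt t n k) ω)) := fun ω => by ring
  simp_rw [e, mul_sub (Y _) (prim _ _ _)]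
  have iMM : Integrable (fun ω => Y ω * M (pt t n (k + 1)) ω ^ 2 - Y ω * M (pt t n k) ω ^ 2) P :=
    (iM _).sub (iM _)
  rw [integral_sub iMM (iO.const_mul 2), integral_sub (iM _) (iM _), integral_const_mul,
    integral_sub (iQ _) (iQ _), h2]
  linarith

/-- the largest increment -/
noncomputable def dlt (a M : ℝ → Ω → ℝ) (t : ℝ) (n : ℕ) (ω : Ω) : ℝ :=
  ⨆ k : Fin n, (|prim a (pt t n (k + 1)) ω - prim a (pt t n k) ω| +
    |M (pt t n (k + 1)) ω - M (pt t n k) ω|)

lemma ItoB.dlt_meas (h : ItoB P F N K a q M) (t : ℝ) (n : ℕ) : Measurable (dlt a M t n) := by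
  unfold dlt
  refine Measurable.iSup fun k => ?_
  exact ((h.da.prim_meas _).sub (h.da.prim_meas _)).abs.add ((h.meas _).sub (h.meas _)).abs

lemma le_dlt (a M : ℝ → Ω → ℝ) (t : ℝ) (n : ℕ) (ω : Ω) {k : ℕ} (hk : k < n) :
    |prim a (pt t n (k + 1)) ω - prim a (pt t n k) ω| +
      |M (pt t n (k + 1)) ω - M (pt t n k) ω| ≤ dlt a M t n ω :=
  le_ciSup (f := fun k : Fin n => (|prim a (pt t n (k + 1)) ω - prim a (pt t n k) ω| +
    |M (pt t n (k + 1)) ω - M (pt t n k) ω|)) (Set.finite_range _).bddAbove ⟨k, hk⟩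

lemma dlt_nonneg (a M : ℝ → Ω → ℝ) (t : ℝ) (n : ℕ) (ω : Ω) : 0 ≤ dlt a M t n ω :=
  Real.iSup_nonneg fun _ => by positivity

lemma ItoB.dlt_le (h : ItoB P F N K a q M) [Nonempty Ω] (t : ℝ) (n : ℕ) (ω : Ω) :
    dlt a M t n ω ≤ 2 * K + 2 * N := by
  have hN : 0 ≤ N := (abs_nonneg _).trans (h.bdd 0 ω)
  have hK := h.hK
  refine Real.iSup_le (fun k => ?_) (by positivity)
  have h1 := h.da.prim_le hK (pt t n (k + 1)) ω
  have h2 := h.da.prim_le hK (pt t n k) ω
  have h3 := h.bdd (pt t n (k + 1)) ω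
  have h4 := h.bdd (pt t n k) ω
  have h5 := abs_sub (prim a (pt t n (k + 1)) ω) (prim a (pt t n k) ω)
  have h6 := abs_sub (M (pt t n (k + 1)) ω) (M (pt t n k) ω)
  linarith

lemma ItoB.dlt_tendsto (h : ItoB P F N K a q M) {t : ℝ} (ht : 0 < t) (ω : Ω) :
    Tendsto (fun n => dlt a M t n ω) atTop (𝓝 0) := by
  have u1 := isCompact_Icc.uniformContinuousOn_of_continuous
    (s := Set.Icc (0 : ℝ) t) (h.da.prim_cont ω).continuousOn
  have u2 := isCompact_Icc.uniformContinuousOn_of_continuous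
    (s := Set.Icc (0 : ℝ) t) (h.cont ω).continuousOn
  rw [Metric.uniformContinuousOn_iff] at u1 u2
  rw [Metric.tendsto_atTop]
  intro ε hε
  obtain ⟨e1, he1, k1⟩ := u1 (ε / 3) (by positivity)
  obtain ⟨e2, he2, k2⟩ := u2 (ε / 3) (by positivity)
  have h0 : Tendsto (fun n : ℕ => t / n) atTop (𝓝 0) := tendsto_const_div_atTop_nhds_zero_nat t
  have h1 := h0.eventually (gt_mem_nhds (lt_min he1 he2))
  obtain ⟨n₀, hn₀⟩ := (h1.and (eventually_ge_atTop 1)).exists_forall_of_atTop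
  refine ⟨n₀, fun n hn => ?_⟩
  obtain ⟨h2, h3⟩ := hn₀ n hn
  rw [Real.dist_eq, sub_zero, abs_of_nonneg (dlt_nonneg _ _ _ _ _)]
  refine lt_of_le_of_lt (b := 2 * (ε / 3)) (Real.iSup_le (fun k => ?_) (by positivity))
    (by linarith)
  have m0 : pt t n 0 ≤ pt t n k := pt_mono ht n (Nat.zero_le _)
  have m1 : pt t n k ≤ pt t n (k + 1) := pt_mono ht n (Nat.le_succ _)
  have m2 : pt t n (k + 1) ≤ pt t n n := pt_mono ht n k.2
  rw [pt_zero] at m0
  rw [pt_last t h3] at m2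
  have i1 : pt t n (k + 1) ∈ Set.Icc (0 : ℝ) t := ⟨by linarith, m2⟩
  have i2 : pt t n k ∈ Set.Icc (0 : ℝ) t := ⟨m0, by linarith⟩
  have hd : dist (pt t n (k + 1)) (pt t n k) < min e1 e2 := by
    rw [Real.dist_eq, pt_succ_sub, abs_of_nonneg (by positivity)]; exact h2
  have r1 := k1 _ i1 _ i2 (hd.trans_le (min_le_left _ _))
  have r2 := k2 _ i1 _ i2 (hd.trans_le (min_le_right _ _))
  rw [Real.dist_eq] at r1 r2
  linarith

lemma ItoB.x_meas (h : ItoB P F N K a q M) (x t : ℝ) : Measurable (XX x a M t) :=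
  (measurable_const.add (h.da.prim_meas t)).add (h.meas t)

lemma ItoB.x_cont (h : ItoB P F N K a q M) (x : ℝ) (ω : Ω) : Continuous fun t => XX x a M t ω :=
  (continuous_const.add (h.da.prim_cont ω)).add (h.cont ω)

lemma ItoB.x_bdd (h : ItoB P F N K a q M) (x t : ℝ) (ω : Ω) :
    |XX x a M t ω| ≤ |x| + K + N := by
  unfold XX
  have h1 := h.da.prim_le h.hK t ω
  have h2 := h.bdd t ω
  have h3 := abs_add_le (x + prim a t ω) (M t ω)
  have h4 := abs_add_le x (prim a t ω)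
  linarith

lemma ItoB.x_joint (h : ItoB P F N K a q M) (x : ℝ) :
    Measurable fun z : ℝ × Ω => XX x a M z.1 z.2 := by
  have := measurable_uncurry_of_continuous_of_measurable (u := fun t ω => XX x a M t ω)
    (fun ω => h.x_cont x ω) (fun t => h.x_meas x t)
  exact this

/-- Ito's formula in expectation for bounded martingales -/
theorem ItoB.dynkin (h : ItoB P F N K a q M) (x : ℝ) {t : ℝ} (ht : 0 < t) {j : ℝ → ℝ} {L : ℝ}
    (hj : JC j L) :
    ∫ ω, j (XX x a M t ω) ∂P - j x =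
      ∫ z, deriv j (XX x a M z.1 z.2) * a z.1 z.2 ∂((volume.restrict (Ioo 0 t)).prod P) +
      (∫ z, iteratedDeriv 2 j (XX x a M z.1 z.2) * q z.1 z.2
        ∂((volume.restrict (Ioo 0 t)).prod P)) / 2 := by
  have hne : Nonempty Ω := nonempty_of_isProbabilityMeasure P
  obtain ⟨ω₀⟩ := id hne
  have hN : 0 ≤ N := (abs_nonneg _).trans (h.bdd 0 ω₀)
  have hK := h.hK
  have hL := hj.nonneg
  -- the four sums
  set S1 : ℕ → Ω → ℝ := fun n ω => ∑ k ∈ range n, deriv j (XX x a M (pt t n k) ω) *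
    (prim a (pt t n (k + 1)) ω - prim a (pt t n k) ω) with hS1
  set S2 : ℕ → Ω → ℝ := fun n ω => ∑ k ∈ range n, deriv j (XX x a M (pt t n k) ω) *
    (M (pt t n (k + 1)) ω - M (pt t n k) ω) with hS2
  set S3 : ℕ → Ω → ℝ := fun n ω => ∑ k ∈ range n, iteratedDeriv 2 j (XX x a M (pt t n k) ω) *
    (M (pt t n (k + 1)) ω - M (pt t n k) ω) ^ 2 with hS3
  set S4 : ℕ → Ω → ℝ := fun n ω => ∑ k ∈ range n, iteratedDeriv 2 j (XX x a M (pt t n k) ω) *
    (prim q (pt t n (k + 1)) ω - prim q (pt t n k) ω) with hS4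
  have mj1 : ∀ s, Measurable fun ω => deriv j (XX x a M s ω) := fun s =>
    hj.c1.measurable.comp (h.x_meas x s)
  have mj2 : ∀ s, Measurable fun ω => iteratedDeriv 2 j (XX x a M s ω) := fun s =>
    hj.c2.measurable.comp (h.x_meas x s)
  have da : ∀ n k ω, |prim a (pt t n (k + 1)) ω - prim a (pt t n k) ω| ≤ 2 * K :=
    fun n k ω => by
      have h1 := h.da.prim_le hK (pt t n (k + 1)) ω
      have h2 := h.da.prim_le hK (pt t n k) ω
      have h5 := abs_sub (prim a (pt t n (k + 1)) ω) (prim a (pt t n k) ω)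
      linarith
  have dq : ∀ n k ω, |prim q (pt t n (k + 1)) ω - prim q (pt t n k) ω| ≤ 2 * K :=
    fun n k ω => by
      have h1 := h.dq.prim_le hK (pt t n (k + 1)) ω
      have h2 := h.dq.prim_le hK (pt t n k) ω
      have h5 := abs_sub (prim q (pt t n (k + 1)) ω) (prim q (pt t n k) ω)
      linarith
  have i1 : ∀ n k, Integrable (fun ω => deriv j (XX x a M (pt t n k) ω) *
      (prim a (pt t n (k + 1)) ω - prim a (pt t n k) ω)) P := fun n k =>
    int_bdd ((mj1 _).mul ((h.da.prim_meas _).sub (h.da.prim_meas _))) (C := L * (2 * K))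
      fun ω => by
        rw [abs_mul]; exact mul_le_mul (hj.b1 _) (da n k ω) (abs_nonneg _) hL
  have i2 : ∀ n k, Integrable (fun ω => deriv j (XX x a M (pt t n k) ω) *
      (M (pt t n (k + 1)) ω - M (pt t n k) ω)) P := fun n k =>
    int_bdd ((mj1 _).mul ((h.meas _).sub (h.meas _))) (C := L * (2 * N))
      fun ω => by
        rw [abs_mul]
        exact mul_le_mul (hj.b1 _) ((h.samp ht n).dbdd k ω) (abs_nonneg _) hL
  have i3 : ∀ n k, Integrable (fun ω => iteratedDeriv 2 j (XX x a M (pt t n k) ω) *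
      (M (pt t n (k + 1)) ω - M (pt t n k) ω) ^ 2) P := fun n k =>
    int_bdd ((mj2 _).mul (((h.meas _).sub (h.meas _)).pow_const 2)) (C := L * (2 * N) ^ 2)
      fun ω => by
        rw [abs_mul, abs_pow]
        exact mul_le_mul (hj.b2 _)
          (pow_le_pow_left₀ (abs_nonneg _) ((h.samp ht n).dbdd k ω) 2) (by positivity) hL
  have i4 : ∀ n k, Integrable (fun ω => iteratedDeriv 2 j (XX x a M (pt t n k) ω) *
      (prim q (pt t n (k + 1)) ω - prim q (pt t n k) ω)) P := fun n k =>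
    int_bdd ((mj2 _).mul ((h.dq.prim_meas _).sub (h.dq.prim_meas _))) (C := L * (2 * K))
      fun ω => by
        rw [abs_mul]; exact mul_le_mul (hj.b2 _) (dq n k ω) (abs_nonneg _) hL
  have I1 : ∀ n, Integrable (S1 n) P := fun n => integrable_finsetSum _ fun k _ => i1 n k
  have I2 : ∀ n, Integrable (S2 n) P := fun n => integrable_finsetSum _ fun k _ => i2 n k
  have I3 : ∀ n, Integrable (S3 n) P := fun n => integrable_finsetSum _ fun k _ => i3 n k
  have E2 : ∀ n, ∫ ω, S2 n ω ∂P = 0 := fun n => by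
    simp only [hS2]
    rw [integral_finsetSum _ fun k _ => i2 n k]
    refine Finset.sum_eq_zero fun k _ => ?_
    exact (h.samp ht n).orth k _ L
      (hj.c1.comp_stronglyMeasurable (h.xad x ht n k)) fun ω => hj.b1 _
  have E3 : ∀ n, ∫ ω, S3 n ω ∂P = ∫ ω, S4 n ω ∂P := fun n => by
    simp only [hS3, hS4]
    rw [integral_finsetSum _ fun k _ => i3 n k, integral_finsetSum _ fun k _ => i4 n k]
    refine Finset.sum_congr rfl fun k _ => ?_
    exact h.quad ht n k (hj.c2.comp_stronglyMeasurable (h.xad x ht n k)) fun ω => hj.b2 _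
  have iX : Integrable (fun ω => j (XX x a M t ω)) P := by
    refine int_bdd (hj.smooth.continuous.measurable.comp (h.x_meas x t))
      (C := |j 0| + L * (|x| + K + N)) fun ω => ?_
    have h1 := hj.lip 0 (XX x a M t ω)
    have h2 := h.x_bdd x t ω
    rw [sub_zero] at h1
    have h3 := abs_add_le (j (XX x a M t ω) - j 0) (j 0)
    rw [sub_add_cancel] at h3
    have h4 := mul_le_mul_of_nonneg_left h2 hL
    linarith
  -- the remainder
  set R : ℕ → Ω → ℝ := fun n ω => j (XX x a M t ω) - j x - S1 n ω - S2 n ω - S3 n ω / 2 with hR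
  have IR : ∀ n, Integrable (R n) P := fun n =>
    (((iX.sub (integrable_const _)).sub (I1 n)).sub (I2 n)).sub ((I3 n).div_const 2)
  have ER : ∀ n, ∫ ω, R n ω ∂P = ∫ ω, j (XX x a M t ω) ∂P - j x - ∫ ω, S1 n ω ∂P -
      (∫ ω, S4 n ω ∂P) / 2 := fun n => by
    simp only [hR]
    have a1 : Integrable (fun ω => j (XX x a M t ω) - j x) P := iX.sub (integrable_const _)
    have a2 : Integrable (fun ω => j (XX x a M t ω) - j x - S1 n ω) P := a1.sub (I1 n)
    have a3 : Integrable (fun ω => j (XX x a M t ω) - j x - S1 n ω - S2 n ω) P := a2.sub (I2 n)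
    rw [integral_sub a3 ((I3 n).div_const 2), integral_sub a2 (I2 n), integral_sub a1 (I1 n),
      integral_sub iX (integrable_const _), E2 n, integral_div, E3 n]
    simp
  set Q : ℕ → Ω → ℝ := fun n ω => qsum (fun k => M (pt t n k)) n ω with hQ
  have hRb : ∀ n, 1 ≤ n → ∀ ω, |R n ω| ≤ 2 * L * (2 * K + 2 * N) * K * dlt a M t n ω +
      2 * L * (dlt a M t n ω * Q n ω) + L * K * dlt a M t n ω := fun n hn ω => by
    have hd0 := dlt_nonneg a M t n ω
    have hd1 := h.dlt_le t n ω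
    have h1 := hj.sum_rem (x := x) (fun k => prim a (pt t n k) ω) (fun k => M (pt t n k) ω)
      (by simp [pt_zero, prim_zero]) (by simp [pt_zero, h.zero]) n
      (h.da.var_le hK ht n ω) hd0 (fun k hk => le_dlt a M t n ω hk)
    simp only [pt_last t hn] at h1
    refine le_trans (le_of_eq ?_) (h1.trans ?_)
    · simp only [hR, hS1, hS2, hS3, XX]
    · have h2 : 2 * L * dlt a M t n ω * (dlt a M t n ω * K +
          ∑ k ∈ range n, (M (pt t n (k + 1)) ω - M (pt t n k) ω) ^ 2) =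
          2 * L * K * dlt a M t n ω * dlt a M t n ω + 2 * L * (dlt a M t n ω * Q n ω) := by
        simp only [hQ, qsum]; ring
      rw [h2]
      have h3 : 2 * L * K * dlt a M t n ω * dlt a M t n ω ≤
          2 * L * K * dlt a M t n ω * (2 * K + 2 * N) :=
        mul_le_mul_of_nonneg_left hd1 (by positivity)
      have h4 : 2 * L * K * dlt a M t n ω * (2 * K + 2 * N) =
          2 * L * (2 * K + 2 * N) * K * dlt a M t n ω := by ring
      have h5 : L * dlt a M t n ω * K = L * K * dlt a M t n ω := by ring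
      linarith
  have Id : ∀ n, Integrable (dlt a M t n) P := fun n =>
    int_bdd (h.dlt_meas t n) (C := 2 * K + 2 * N) fun ω => by
      rw [abs_of_nonneg (dlt_nonneg _ _ _ _ _)]; exact h.dlt_le t n ω
  have hQb : ∀ n, ∀ ω, Q n ω ≤ n * (2 * N) ^ 2 := fun n ω => by
    simp only [hQ, qsum]
    calc ∑ k ∈ range n, (M (pt t n (k + 1)) ω - M (pt t n k) ω) ^ 2 ≤
        ∑ k ∈ range n, (2 * N) ^ 2 := Finset.sum_le_sum fun k _ => by
          rw [← sq_abs]
          exact pow_le_pow_left₀ (abs_nonneg _) ((h.samp ht n).dbdd k ω) 2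
      _ = n * (2 * N) ^ 2 := by rw [Finset.sum_const, Finset.card_range, nsmul_eq_mul]
  have IdQ : ∀ n, Integrable (fun ω => dlt a M t n ω * Q n ω) P := fun n =>
    int_bdd ((h.dlt_meas t n).mul (qsum_meas (h.samp ht n) n))
      (C := (2 * K + 2 * N) * (n * (2 * N) ^ 2)) fun ω => by
      rw [abs_mul, abs_of_nonneg (dlt_nonneg _ _ _ _ _), abs_of_nonneg (qsum_nonneg _ _ _)]
      exact mul_le_mul (h.dlt_le t n ω) (hQb n ω) (qsum_nonneg _ _ _) (by positivity)
  have T1 : Tendsto (fun n => ∫ ω, dlt a M t n ω ∂P) atTop (𝓝 0) := by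
    have h1 : Tendsto (fun n => ∫ ω, dlt a M t n ω ∂P) atTop (𝓝 (∫ _ : Ω, (0 : ℝ) ∂P)) := by
      refine tendsto_integral_of_dominated_convergence (fun _ => 2 * K + 2 * N)
        (fun n => (h.dlt_meas t n).aestronglyMeasurable) (integrable_const _)
        (fun n => ae_of_all _ fun ω => ?_) (ae_of_all _ fun ω => h.dlt_tendsto ht ω)
      rw [Real.norm_eq_abs, abs_of_nonneg (dlt_nonneg _ _ _ _ _)]; exact h.dlt_le t n ω
    simpa using h1
  have T2 : Tendsto (fun n => ∫ ω, dlt a M t n ω * Q n ω ∂P) atTop (𝓝 0) :=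
    prod_tendsto (fun n => h.dlt_meas t n) (fun n => qsum_meas (h.samp ht n) n)
      (fun n ω => dlt_nonneg _ _ _ _ _) (fun n ω => h.dlt_le t n ω)
      (fun n ω => qsum_nonneg _ _ _) (fun n => ⟨_, hQb n⟩) (fun ω => h.dlt_tendsto ht ω)
      (fun n => qsum_sq (h.samp ht n) n)
  have TR : Tendsto (fun n => ∫ ω, R n ω ∂P) atTop (𝓝 0) := by
    have hb : ∀ᶠ n in atTop, |∫ ω, R n ω ∂P| ≤ 2 * L * (2 * K + 2 * N) * K *
        (∫ ω, dlt a M t n ω ∂P) + 2 * L * (∫ ω, dlt a M t n ω * Q n ω ∂P) +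
        L * K * ∫ ω, dlt a M t n ω ∂P := by
      filter_upwards [eventually_ge_atTop 1] with n hn
      refine (abs_integral_le_integral_abs).trans ?_
      have b1 : Integrable (fun ω => 2 * L * (2 * K + 2 * N) * K * dlt a M t n ω +
          2 * L * (dlt a M t n ω * Q n ω)) P := ((Id n).const_mul _).add ((IdQ n).const_mul _)
      refine (integral_mono (IR n).abs (b1.add ((Id n).const_mul (L * K))) (hRb n hn)).trans ?_
      refine le_of_eq ?_
      have b2 : ∫ ω, (2 * L * (2 * K + 2 * N) * K * dlt a M t n ω +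
          2 * L * (dlt a M t n ω * Q n ω) + L * K * dlt a M t n ω) ∂P = _ :=
        integral_add b1 ((Id n).const_mul (L * K))
      refine b2.trans ?_
      rw [integral_add ((Id n).const_mul _) ((IdQ n).const_mul _), integral_const_mul,
        integral_const_mul, integral_const_mul]
    have hz : Tendsto (fun n => 2 * L * (2 * K + 2 * N) * K *
        (∫ ω, dlt a M t n ω ∂P) + 2 * L * (∫ ω, dlt a M t n ω * Q n ω ∂P) +
        L * K * ∫ ω, dlt a M t n ω ∂P) atTop (𝓝 0) := by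
      have := ((T1.const_mul (2 * L * (2 * K + 2 * N) * K)).add (T2.const_mul (2 * L))).add
        (T1.const_mul (L * K))
      simpa using this
    exact tendsto_zero_iff_abs_tendsto_zero _ |>.2
      (squeeze_zero' (Eventually.of_forall fun _ => abs_nonneg _) hb hz)
  -- limits of the Riemann sums
  have G1 := riem_lim (P := P) h.da ht (G := fun s ω => deriv j (XX x a M s ω)) (C := L)
    (hj.c1.measurable.comp (h.x_joint x)) (fun s ω => hj.b1 _)
    (fun ω => hj.c1.comp (h.x_cont x ω))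
  have G4 := riem_lim (P := P) h.dq ht (G := fun s ω => iteratedDeriv 2 j (XX x a M s ω)) (C := L)
    (hj.c2.measurable.comp (h.x_joint x)) (fun s ω => hj.b2 _)
    (fun ω => hj.c2.comp (h.x_cont x ω))
  have Hl : Tendsto (fun n => ∫ ω, R n ω ∂P + ∫ ω, S1 n ω ∂P + (∫ ω, S4 n ω ∂P) / 2) atTop
      (𝓝 (0 + ∫ z, deriv j (XX x a M z.1 z.2) * a z.1 z.2
        ∂((volume.restrict (Ioo 0 t)).prod P) +
      (∫ z, iteratedDeriv 2 j (XX x a M z.1 z.2) * q z.1 z.2
        ∂((volume.restrict (Ioo 0 t)).prod P)) / 2)) := (TR.add G1).add (G4.div_const 2)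
  have Hc : ∀ n, ∫ ω, R n ω ∂P + ∫ ω, S1 n ω ∂P + (∫ ω, S4 n ω ∂P) / 2 =
      ∫ ω, j (XX x a M t ω) ∂P - j x := fun n => by rw [ER n]; ring
  simp_rw [Hc] at Hl
  have := tendsto_nhds_unique tendsto_const_nhds Hl
  rw [this]; ring

end Pool.Agent.W_332fe5
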