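import Pool.Agent.W_332fe5_ito.D

set_option autoImplicit false
set_option linter.unusedSectionVars false

/-!
Ito's formula in expectation, part E: hitting times and stopped processes.
-/

open MeasureTheory ProbabilityTheory Set Filter Topology
open scoped ENNReal NNReal

namespace Pool.Agent.W_332fe5

variable {Ω : Type} [mΩ : MeasurableSpace Ω] {P : Measure Ω} [IsProbabilityMeasure P]
  {F : Filtration ℝ≥0 mΩ}

/-- stopping times with values in `[0, 1]` -/
structure RStop (F : Filtration ℝ≥0 mΩ) (ρ : Ω → ℝ) : Prop where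
  nonneg : ∀ ω, 0 ≤ ρ ω
  le_one : ∀ ω, ρ ω ≤ 1
  meas : ∀ t : ℝ≥0, MeasurableSet[F t] {ω | ρ ω ≤ t}

lemma RStop.measurable {ρ : Ω → ℝ} (h : RStop F ρ) : Measurable ρ := by
  refine measurable_of_Iic fun t => ?_
  rcases lt_or_ge t 0 with ht | ht
  · convert MeasurableSet.empty
    ext ω
    simp only [mem_preimage, mem_Iic, mem_empty_iff_false, iff_false, not_le]
    exact ht.trans_le (h.nonneg ω)
  · exact F.le _ _ (h.meas ⟨t, ht⟩)

lemma RStop.one : RStop F (fun _ : Ω => (1 : ℝ)) where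
  nonneg := fun _ => zero_le_one
  le_one := fun _ => le_rfl
  meas := fun t => by
    by_cases h : (1 : ℝ) ≤ t
    · simp [h]
    · simp [h]

/-- the stopped process -/
noncomputable def stp (ρ : Ω → ℝ) (M : ℝ → Ω → ℝ) (t : ℝ) (ω : Ω) : ℝ :=
  M (min (max t 0) (ρ ω)) ω

open Classical in
/-- the killed density -/
noncomputable def itoCut (ρ : Ω → ℝ) (a : ℝ → Ω → ℝ) (s : ℝ) (ω : Ω) : ℝ :=
  if s < ρ ω then a s ω else 0

variable {K : ℝ} {a b M : ℝ → Ω → ℝ} {ρ : Ω → ℝ}

lemma Dens.itoCut (h : Dens K a) (hρ : Measurable ρ) : Dens K (itoCut ρ a) where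
  meas := by
    unfold W_332fe5.itoCut
    exact Measurable.ite (measurableSet_lt measurable_fst (hρ.comp measurable_snd)) h.meas
      measurable_const
  bdd := fun ω => by
    refine (lintegral_mono fun s => ?_).trans (h.bdd ω)
    unfold W_332fe5.itoCut
    split_ifs
    · exact le_rfl
    · simp

lemma prim_cut (h : Dens K a) {ω : Ω} (h0 : 0 ≤ ρ ω) {t : ℝ} (ht : 0 ≤ t) :
    prim (itoCut ρ a) t ω = prim a (min t (ρ ω)) ω := by
  have hi : ∀ u v : ℝ, IntervalIntegrable (fun s => a s ω) volume u v :=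
    fun u v => (h.int ω).intervalIntegrable
  have e1 : ∀ u, 0 ≤ u → u ≤ ρ ω → ∫ s in (0 : ℝ)..u, itoCut ρ a s ω = ∫ s in (0 : ℝ)..u, a s ω := by
    intro u hu hu'
    rw [intervalIntegral.integral_of_le hu, intervalIntegral.integral_of_le hu]
    refine integral_congr_ae ?_
    have hne : ∀ᵐ s ∂(volume : Measure ℝ), s ≠ u := by simp [ae_iff, measure_singleton]
    filter_upwards [ae_restrict_mem measurableSet_Ioc, ae_restrict_of_ae hne] with s hs hs'
    unfold itoCut
    rw [if_pos ((lt_of_le_of_ne hs.2 hs').trans_le hu')]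
  rcases le_total t (ρ ω) with h1 | h1
  · rw [min_eq_left h1]
    exact e1 t ht h1
  · rw [min_eq_right h1]
    unfold prim
    rw [← e1 (ρ ω) h0 le_rfl]
    have e2 : ∫ s in (ρ ω)..t, itoCut ρ a s ω = 0 := by
      rw [intervalIntegral.integral_of_le h1]
      refine setIntegral_eq_zero_of_forall_eq_zero fun s hs => ?_
      unfold itoCut
      rw [if_neg (not_lt.2 hs.1.le)]
    have hc : ∀ u v : ℝ, 0 ≤ u → u ≤ v → IntervalIntegrable (fun s => itoCut ρ a s ω) volume u v := by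
      intro u v _ _
      have hm : IntegrableOn (fun s => a s ω) (Iio (ρ ω)) := (h.int ω).integrableOn
      have : (fun s => itoCut ρ a s ω) = (Iio (ρ ω)).indicator fun s => a s ω := by
        funext s
        unfold itoCut
        simp only [indicator, mem_Iio]
      rw [this]
      exact ((integrable_indicator_iff measurableSet_Iio).2 hm).intervalIntegrable
    rw [← intervalIntegral.integral_add_adjacent_intervals (hc 0 (ρ ω) le_rfl h0)
      (hc (ρ ω) t h0 h1), e2, add_zero]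

/-- continuous semimartingales with bounded variation and bounded quadratic variation -/
structure Ito (P : Measure Ω) (F : Filtration ℝ≥0 mΩ) (K : ℝ) (a b M : ℝ → Ω → ℝ) : Prop where
  hK : 0 ≤ K
  da : Dens K a
  bm : Measurable fun z : ℝ × Ω => b z.1 z.2
  db : Dens K fun s ω => b s ω ^ 2
  cont : ∀ ω, Continuous fun t => M t ω
  zero : ∀ ω, M 0 ω = 0
  meas : ∀ t, Measurable (M t)
  ad : ∀ t : ℝ≥0, StronglyMeasurable[F t] fun ω => prim a t ω
  mart : ∀ ρ : Ω → ℝ, RStop F ρ →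
    Martingale (fun (t : ℝ≥0) ω => M (min t (ρ ω)) ω) F P ∧
    Martingale (fun (t : ℝ≥0) ω => M (min t (ρ ω)) ω ^ 2 -
      prim (fun s ω => b s ω ^ 2) (min t (ρ ω)) ω) F P

lemma Ito.joint (h : Ito P F K a b M) : Measurable fun z : ℝ × Ω => M z.1 z.2 :=
  measurable_uncurry_of_continuous_of_measurable (u := fun t ω => M t ω) h.cont h.meas

/-- an adapted continuous process stopped at a stopping time is adapted -/
lemma stopped_ad {X : ℝ → Ω → ℝ} (hc : ∀ ω, Continuous fun t => X t ω)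
    (hX : ∀ t : ℝ≥0, StronglyMeasurable[F t] (X t)) (hρ : RStop F ρ) (t : ℝ≥0) :
    StronglyMeasurable[F t] fun ω => X (min t (ρ ω)) ω := by
  have hτ : IsStoppingTime F (fun ω => (((ρ ω).toNNReal : ℝ≥0) : WithTop ℝ≥0)) := fun s => by
    have := hρ.meas s
    convert this using 1
    ext ω
    simp only [mem_ofPred_eq, WithTop.coe_le_coe]
    rw [Real.toNNReal_le_iff_le_coe]
  have had : StronglyAdapted F (fun (s : ℝ≥0) ω => X s ω) := hX
  have := had.stoppedProcess (fun ω => (hc ω).comp NNReal.continuous_coe) hτ t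
  convert this using 1
  funext ω
  unfold stoppedProcess
  have h1 : (min (t : WithTop ℝ≥0) (((ρ ω).toNNReal : ℝ≥0) : WithTop ℝ≥0)).untopA =
      min t (ρ ω).toNNReal := by
    rw [← WithTop.coe_min]
    rfl
  rw [h1]
  change X (min (t : ℝ) (ρ ω)) ω = X ((min t (ρ ω).toNNReal : ℝ≥0) : ℝ) ω
  rw [NNReal.coe_min, Real.coe_toNNReal _ (hρ.nonneg ω)]

/-- the stopped semimartingale -/
theorem Ito.stopped (h : Ito P F K a b M) (hρ : RStop F ρ) {N : ℝ}
    (hN : ∀ ω t, 0 ≤ t → t ≤ ρ ω → |M t ω| ≤ N) :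
    ItoB P F N K (itoCut ρ a) (itoCut ρ fun s ω => b s ω ^ 2) (stp ρ M) where
  hK := h.hK
  da := h.da.itoCut hρ.measurable
  dq := h.db.itoCut hρ.measurable
  cont := fun ω => by
    unfold stp
    exact (h.cont ω).comp ((continuous_id.max continuous_const).min continuous_const)
  zero := fun ω => by
    unfold stp
    rw [max_self, min_eq_left (hρ.nonneg ω)]; exact h.zero ω
  meas := fun t => by
    unfold stp
    exact h.joint.comp ((measurable_const.min hρ.measurable).prodMk measurable_id)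
  bdd := fun t ω => by
    unfold stp
    exact hN ω _ (le_min (le_max_right _ _) (hρ.nonneg ω)) (min_le_right _ _)
  ad := fun t => by
    have h1 := stopped_ad (fun ω => h.da.prim_cont ω) h.ad hρ t
    convert h1 using 1
    funext ω
    exact prim_cut h.da (hρ.nonneg ω) t.2
  mart := by
    have h1 := (h.mart ρ hρ).1
    convert h1 using 1
    funext t ω
    unfold stp
    rw [max_eq_left (NNReal.coe_nonneg t)]
  mart2 := by
    have h1 := (h.mart ρ hρ).2
    convert h1 using 1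
    funext t ω
    unfold stp
    rw [max_eq_left (NNReal.coe_nonneg t)]
    congr 1
    exact prim_cut h.db (hρ.nonneg ω) t.2

/-- second moments -/
theorem Ito.sq (h : Ito P F K a b M) (hρ : RStop F ρ) (t : ℝ≥0) :
    Integrable (fun ω => M (min t (ρ ω)) ω ^ 2) P ∧ ∫ ω, M (min t (ρ ω)) ω ^ 2 ∂P ≤ K := by
  obtain ⟨_, h2⟩ := h.mart ρ hρ
  have hm : Measurable fun ω => prim (fun s ω => b s ω ^ 2) (min t (ρ ω)) ω := by
    have hj : Measurable fun z : ℝ × Ω => prim (fun s ω => b s ω ^ 2) z.1 z.2 :=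
      measurable_uncurry_of_continuous_of_measurable
        (u := fun t ω => prim (fun s ω => b s ω ^ 2) t ω) h.db.prim_cont h.db.prim_meas
    exact hj.comp ((measurable_const.min hρ.measurable).prodMk measurable_id)
  have hq : Integrable (fun ω => prim (fun s ω => b s ω ^ 2) (min t (ρ ω)) ω) P :=
    int_bdd hm fun ω => h.db.prim_le h.hK _ ω
  have i1 : Integrable (fun ω => M (min t (ρ ω)) ω ^ 2 -
      prim (fun s ω => b s ω ^ 2) (min t (ρ ω)) ω) P := h2.integrable t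
  have i2 : Integrable (fun ω => M (min t (ρ ω)) ω ^ 2) P := by
    have := i1.add hq
    refine this.congr (ae_of_all _ fun ω => ?_)
    simp
  refine ⟨i2, ?_⟩
  have ht0 : (0 : ℝ≥0) ≤ t := bot_le
  have e0 := mart_mul h2 ht0 (Y := fun _ => 1) stronglyMeasurable_const (C := 1)
    (fun _ => by simp)
  simp only [one_mul, NNReal.coe_zero] at e0
  have e1 : ∫ ω, (M (min 0 (ρ ω)) ω ^ 2 - prim (fun s ω => b s ω ^ 2) (min 0 (ρ ω)) ω) ∂P = 0 := by
    have : ∀ ω, M (min 0 (ρ ω)) ω ^ 2 - prim (fun s ω => b s ω ^ 2) (min 0 (ρ ω)) ω = 0 :=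
      fun ω => by rw [min_eq_left (hρ.nonneg ω), h.zero, prim_zero]; simp
    simp_rw [this]; simp
  rw [e1, integral_sub i2 hq] at e0
  have e2 : ∫ ω, prim (fun s ω => b s ω ^ 2) (min t (ρ ω)) ω ∂P ≤ K := by
    calc _ ≤ ∫ _ : Ω, K ∂P := integral_mono hq (integrable_const _) fun ω =>
          (le_abs_self _).trans (h.db.prim_le h.hK _ ω)
      _ = K := by simp
  linarith

/-- the hitting time of the level `N` -/
noncomputable def hit (M : ℝ → Ω → ℝ) (N : ℝ) (ω : Ω) : ℝ :=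
  sInf ({s | s ∈ Icc (0 : ℝ) 1 ∧ N ≤ |M s ω|} ∪ {1})

lemma hit_bdd (M : ℝ → Ω → ℝ) (N : ℝ) (ω : Ω) :
    BddBelow ({s | s ∈ Icc (0 : ℝ) 1 ∧ N ≤ |M s ω|} ∪ {1}) :=
  ⟨0, by rintro s (hs | rfl); exacts [hs.1.1, zero_le_one]⟩

lemma hit_nonneg (M : ℝ → Ω → ℝ) (N : ℝ) (ω : Ω) : 0 ≤ hit M N ω :=
  le_csInf ⟨1, Or.inr rfl⟩ (by rintro s (hs | rfl); exacts [hs.1.1, zero_le_one])

lemma hit_le_one (M : ℝ → Ω → ℝ) (N : ℝ) (ω : Ω) : hit M N ω ≤ 1 :=
  csInf_le (hit_bdd M N ω) (Or.inr rfl)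

lemma lt_of_lt_hit {M : ℝ → Ω → ℝ} {N : ℝ} {ω : Ω} {s : ℝ} (h0 : 0 ≤ s) (h1 : s < hit M N ω) :
    |M s ω| < N := by
  by_contra hc
  exact absurd (csInf_le (hit_bdd M N ω) (Or.inl ⟨⟨h0, h1.le.trans (hit_le_one M N ω)⟩,
    not_lt.1 hc⟩)) (not_le.2 h1)

lemma le_of_le_hit {M : ℝ → Ω → ℝ} {N : ℝ} {ω : Ω} (hc : Continuous fun t => M t ω)
    (hz : M 0 ω = 0) (hN : 0 ≤ N) {s : ℝ} (h0 : 0 ≤ s) (h1 : s ≤ hit M N ω) : |M s ω| ≤ N := by
  rcases h1.lt_or_eq with h2 | h2
  · exact (lt_of_lt_hit h0 h2).le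
  · rcases h0.eq_or_lt with h3 | h3
    · rw [← h3, hz]; simpa using hN
    · have hcl : IsClosed {s : ℝ | |M s ω| ≤ N} := isClosed_le hc.abs continuous_const
      have hsub : Ico 0 (hit M N ω) ⊆ {s : ℝ | |M s ω| ≤ N} := fun u hu =>
        (lt_of_lt_hit hu.1 hu.2).le
      have := closure_minimal hsub hcl
      rw [closure_Ico (by rw [← h2]; exact h3.ne)] at this
      exact this ⟨h0, h1⟩

lemma hit_le_iff {M : ℝ → Ω → ℝ} {N : ℝ} {ω : Ω} (hc : Continuous fun t => M t ω) {t : ℝ}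
    (h1 : t < 1) : hit M N ω ≤ t ↔ ∃ s ∈ Icc (0 : ℝ) t, N ≤ |M s ω| := by
  constructor
  · intro h
    have hcp : IsCompact ({s | s ∈ Icc (0 : ℝ) 1 ∧ N ≤ |M s ω|} ∪ {1}) := by
      refine IsCompact.union ?_ isCompact_singleton
      exact isCompact_Icc.inter_right (isClosed_le continuous_const hc.abs)
    rcases hcp.sInf_mem ⟨1, Or.inr rfl⟩ with h2 | h2
    · exact ⟨hit M N ω, ⟨h2.1.1, h⟩, h2.2⟩
    · have h3 : hit M N ω = 1 := h2
      rw [h3] at h
      exact absurd h (not_le.2 h1)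
  · rintro ⟨s, hs, hs'⟩
    exact (csInf_le (hit_bdd M N ω) (Or.inl ⟨⟨hs.1, hs.2.trans h1.le⟩, hs'⟩)).trans hs.2

lemma ex_iff_rat {g : ℝ → ℝ} (hg : Continuous g) {t : ℝ} (ht : 0 ≤ t) (N : ℝ) :
    (∃ s ∈ Icc (0 : ℝ) t, N ≤ g s) ↔
      ∀ k : ℕ, ∃ q : ℚ, N - 1 / ((k : ℝ) + 1) < g (max 0 (min t (q : ℝ))) := by
  have hcl : Continuous fun r : ℝ => g (max 0 (min t r)) :=
    hg.comp (continuous_const.max (continuous_const.min continuous_id))
  constructor
  · rintro ⟨s, hs, hs'⟩ k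
    have hopen : IsOpen {r : ℝ | N - 1 / ((k : ℝ) + 1) < g (max 0 (min t r))} :=
      isOpen_lt continuous_const hcl
    have hne : s ∈ {r : ℝ | N - 1 / ((k : ℝ) + 1) < g (max 0 (min t r))} := by
      simp only [mem_ofPred_eq]
      rw [min_eq_right hs.2, max_eq_right hs.1]
      have : 0 < 1 / ((k : ℝ) + 1) := by positivity
      linarith
    obtain ⟨q, hq⟩ := Rat.denseRange_cast.exists_mem_open hopen ⟨s, hne⟩
    exact ⟨q, hq⟩
  · intro h
    obtain ⟨s, hs, hmax⟩ := isCompact_Icc.exists_isMaxOn (s := Icc (0 : ℝ) t)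
      (nonempty_Icc.2 ht) hg.continuousOn
    refine ⟨s, hs, le_of_forall_pos_lt_add fun ε hε => ?_⟩
    obtain ⟨k, hk⟩ := exists_nat_one_div_lt hε
    obtain ⟨q, hq⟩ := h k
    have h1 : g (max 0 (min t (q : ℝ))) ≤ g s :=
      hmax ⟨le_max_left _ _, max_le ht (min_le_left _ _)⟩
    linarith

lemma hit_stop {N : ℝ} (hc : ∀ ω, Continuous fun t => M t ω)
    (had : ∀ t : ℝ≥0, t ≤ 1 → StronglyMeasurable[F t] (M t)) : RStop F (hit M N) where
  nonneg := hit_nonneg M N
  le_one := hit_le_one M N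
  meas := fun t => by
    by_cases h1 : (1 : ℝ) ≤ t
    · convert MeasurableSet.univ
      ext ω
      simp only [mem_ofPred_eq, mem_univ, iff_true]
      exact (hit_le_one M N ω).trans h1
    · have h1 : (t : ℝ) < 1 := not_le.1 h1
      have e : {ω | hit M N ω ≤ t} = ⋂ k : ℕ, ⋃ q : ℚ,
          {ω | N - 1 / ((k : ℝ) + 1) < |M (max 0 (min t (q : ℝ))) ω|} := by
        ext ω
        simp only [mem_ofPred_eq, mem_iInter, mem_iUnion]
        exact (hit_le_iff (hc ω) h1).trans (ex_iff_rat (g := fun s => |M s ω|) (hc ω).abs t.2 N)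
      rw [e]
      refine MeasurableSet.iInter fun k => MeasurableSet.iUnion fun q => ?_
      have hle : max 0 (min (t : ℝ) (q : ℝ)) ≤ t := max_le t.2 (min_le_left _ _)
      have h0 : 0 ≤ max 0 (min (t : ℝ) (q : ℝ)) := le_max_left _ _
      have h2 : StronglyMeasurable[F t] (M (max 0 (min (t : ℝ) (q : ℝ)))) := by
        have hc' := Real.coe_toNNReal _ h0
        have h3 := had (max 0 (min (t : ℝ) (q : ℝ))).toNNReal (by
          rw [← NNReal.coe_le_coe, hc']; exact hle.trans h1.le)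
        rw [hc'] at h3
        exact h3.mono (F.mono (by rw [← NNReal.coe_le_coe, hc']; exact hle))
      have h4 : Measurable[F t] fun ω => |M (max 0 (min (t : ℝ) (q : ℝ))) ω| := by
        have := h2.measurable
        exact measurable_abs.comp this
      exact h4 measurableSet_Ioi

lemma hit_eventually {ω : Ω} (hc : Continuous fun t => M t ω) :
    ∀ᶠ n : ℕ in atTop, hit M n ω = 1 := by
  obtain ⟨s, _, hmax⟩ := isCompact_Icc.exists_isMaxOn (s := Icc (0 : ℝ) 1)
    (nonempty_Icc.2 zero_le_one) hc.abs.continuousOn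
  filter_upwards [eventually_gt_atTop ⌈|M s ω|⌉₊] with n hn
  have h1 : |M s ω| < n := (Nat.le_ceil _).trans_lt (by exact_mod_cast hn)
  unfold hit
  have : {s | s ∈ Icc (0 : ℝ) 1 ∧ (n : ℝ) ≤ |M s ω|} = ∅ := by
    ext u
    simp only [mem_ofPred_eq, mem_empty_iff_false, iff_false, not_and, not_le]
    intro hu
    exact (hmax hu).trans_lt h1
  rw [this]
  simp

end Pool.Agent.W_332fe5
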