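import Pool.Agent.W_332fe5_ito.E

set_option autoImplicit false
set_option linter.unusedSectionVars false

/-!
Ito's formula in expectation, part G: the formula for `j (X t)`.
-/

open MeasureTheory ProbabilityTheory Set Filter Topology
open scoped ENNReal NNReal

namespace Pool.Agent.W_332fe5

variable {Ω : Type} [mΩ : MeasurableSpace Ω] {P : Measure Ω} [IsProbabilityMeasure P]
  {F : Filtration ℝ≥0 mΩ}

/-- convergence in `L¹` of random variables bounded in `L²` -/
lemma l1_tendsto {Z : ℕ → Ω → ℝ} {B : ℝ} (hm : ∀ n, Measurable (Z n))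
    (hi : ∀ n, Integrable (fun ω => Z n ω ^ 2) P) (hB : ∀ n, ∫ ω, Z n ω ^ 2 ∂P ≤ B)
    (hz : ∀ ω, Tendsto (fun n => Z n ω) atTop (𝓝 0)) :
    Tendsto (fun n => ∫ ω, |Z n ω| ∂P) atTop (𝓝 0) := by
  have hB0 : 0 ≤ B := (integral_nonneg fun ω => sq_nonneg _).trans (hB 0)
  have key : ∀ n (R : ℝ), 0 < R → ∫ ω, |Z n ω| ∂P ≤ ∫ ω, min |Z n ω| R ∂P + B / R := by
    intro n R hR
    have i1 : Integrable (fun ω => min |Z n ω| R) P :=
      int_bdd ((hm n).abs.min measurable_const) (C := R) fun ω => by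
        rw [abs_of_nonneg (le_min (abs_nonneg _) hR.le)]; exact min_le_right _ _
    have i2 : Integrable (fun ω => Z n ω ^ 2 / R) P := (hi n).div_const R
    have e : ∀ ω, |Z n ω| ≤ min |Z n ω| R + Z n ω ^ 2 / R := fun ω => by
      rcases le_total (|Z n ω|) R with h1 | h1
      · rw [min_eq_left h1]
        have : 0 ≤ Z n ω ^ 2 / R := by positivity
        linarith
      · rw [min_eq_right h1]
        have : |Z n ω| ≤ Z n ω ^ 2 / R := by
          rw [le_div_iff₀ hR, ← sq_abs, sq]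
          exact mul_le_mul_of_nonneg_left h1 (abs_nonneg _)
        linarith
    calc ∫ ω, |Z n ω| ∂P ≤ ∫ ω, (min |Z n ω| R + Z n ω ^ 2 / R) ∂P :=
          integral_mono_of_nonneg (ae_of_all _ fun _ => abs_nonneg _) (i1.add i2) (ae_of_all _ e)
      _ = ∫ ω, min |Z n ω| R ∂P + (∫ ω, Z n ω ^ 2 ∂P) / R := by
          rw [integral_add i1 i2, integral_div]
      _ ≤ _ := by
          have := div_le_div_of_nonneg_right (hB n) hR.le
          linarith
  have hlim : ∀ R : ℝ, 0 < R → Tendsto (fun n => ∫ ω, min |Z n ω| R ∂P) atTop (𝓝 0) := by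
    intro R hR
    have h1 : Tendsto (fun n => ∫ ω, min |Z n ω| R ∂P) atTop (𝓝 (∫ _ : Ω, (0 : ℝ) ∂P)) := by
      refine tendsto_integral_of_dominated_convergence (fun _ => R)
        (fun n => ((hm n).abs.min measurable_const).aestronglyMeasurable) (integrable_const _)
        (fun n => ae_of_all _ fun ω => ?_) (ae_of_all _ fun ω => ?_)
      · rw [Real.norm_eq_abs, abs_of_nonneg (le_min (abs_nonneg _) hR.le)]
        exact min_le_right _ _
      · have := ((hz ω).abs).min (tendsto_const_nhds (x := R))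
        simpa [hR.le] using this
    simpa using h1
  rw [Metric.tendsto_atTop]
  intro ε hε
  set R : ℝ := 2 * (B + 1) / ε with hR
  have hR0 : 0 < R := by positivity
  obtain ⟨n₀, hn₀⟩ := (Metric.tendsto_atTop.1 (hlim R hR0)) (ε / 2) (by positivity)
  refine ⟨n₀, fun n hn => ?_⟩
  have h2 := hn₀ n hn
  rw [Real.dist_eq, sub_zero] at h2 ⊢
  have h4 : 0 ≤ ∫ ω, |Z n ω| ∂P := integral_nonneg fun ω => abs_nonneg _
  rw [abs_of_nonneg h4]
  have h5 : B / R < ε / 2 := by
    rw [hR, div_div_eq_mul_div, div_lt_div_iff₀ (by positivity) (by norm_num)]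
    nlinarith
  have h6 := le_abs_self (∫ ω, min |Z n ω| R ∂P)
  have h7 := key n R hR0
  linarith

variable {K : ℝ} {a b M : ℝ → Ω → ℝ} {ρ : Ω → ℝ}

lemma Ito.m_ad (h : Ito P F K a b M) (t : ℝ≥0) (ht : t ≤ 1) : StronglyMeasurable[F t] (M t) := by
  have := (h.mart _ RStop.one).1.stronglyMeasurable t
  convert this using 1
  funext ω
  rw [min_eq_left]
  exact_mod_cast ht

lemma Ito.hitS (h : Ito P F K a b M) (n : ℕ) : RStop F (hit M n) :=
  hit_stop h.cont h.m_ad

lemma Ito.x_cont (h : Ito P F K a b M) (x : ℝ) (ω : Ω) : Continuous fun t => XX x a M t ω :=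
  (continuous_const.add (h.da.prim_cont ω)).add (h.cont ω)

lemma Ito.x_meas (h : Ito P F K a b M) (x t : ℝ) : Measurable (XX x a M t) :=
  (measurable_const.add (h.da.prim_meas t)).add (h.meas t)

lemma Ito.x_joint (h : Ito P F K a b M) (x : ℝ) :
    Measurable fun z : ℝ × Ω => XX x a M z.1 z.2 :=
  measurable_uncurry_of_continuous_of_measurable (u := fun t ω => XX x a M t ω)
    (fun ω => h.x_cont x ω) (fun t => h.x_meas x t)

lemma stp_x (h : Ito P F K a b M) (hρ : RStop F ρ) (x : ℝ) {t : ℝ} (ht : 0 ≤ t) (ω : Ω) :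
    XX x (itoCut ρ a) (stp ρ M) t ω = XX x a M (min t (ρ ω)) ω := by
  unfold XX
  rw [prim_cut h.da (hρ.nonneg ω) ht]
  unfold stp
  rw [max_eq_left ht]

lemma Ito.m_sq (h : Ito P F K a b M) {t : ℝ} (ht : 0 ≤ t) (ht1 : t ≤ 1) :
    Integrable (fun ω => M t ω ^ 2) P ∧ ∫ ω, M t ω ^ 2 ∂P ≤ K := by
  have h1 := h.sq RStop.one ⟨t, ht⟩
  change Integrable (fun ω => M (min t 1) ω ^ 2) P ∧ ∫ ω, M (min t 1) ω ^ 2 ∂P ≤ K at h1
  simpa only [min_eq_left ht1] using h1

lemma Ito.x_int_stop (h : Ito P F K a b M) (x : ℝ) {t : ℝ} (ht : 0 ≤ t) (hρ : RStop F ρ) :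
    Integrable (fun ω => XX x a M (min t (ρ ω)) ω) P := by
  have hmm : Measurable fun ω => min t (ρ ω) := measurable_const.min hρ.measurable
  have pj : Measurable fun z : ℝ × Ω => prim a z.1 z.2 :=
    measurable_uncurry_of_continuous_of_measurable
      (u := fun t ω => prim a t ω) h.da.prim_cont h.da.prim_meas
  have mM : Measurable fun ω => M (min t (ρ ω)) ω := h.joint.comp (hmm.prodMk measurable_id)
  have mA : Measurable fun ω => prim a (min t (ρ ω)) ω := pj.comp (hmm.prodMk measurable_id)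
  have i1 : Integrable (fun ω => prim a (min t (ρ ω)) ω) P :=
    int_bdd mA (C := K) fun ω => h.da.prim_le h.hK _ _
  have s1 := (h.sq hρ ⟨t, ht⟩).1
  have i2 : Integrable (fun ω => M (min t (ρ ω)) ω) P := by
    refine Integrable.mono' ((integrable_const (1 : ℝ)).add s1) mM.aestronglyMeasurable
      (ae_of_all _ fun ω => ?_)
    rw [Real.norm_eq_abs]
    change |M (min t (ρ ω)) ω| ≤ 1 + M (min t (ρ ω)) ω ^ 2
    rw [← sq_abs (M (min t (ρ ω)) ω)]
    nlinarith [sq_nonneg (|M (min t (ρ ω)) ω| - 1), abs_nonneg (M (min t (ρ ω)) ω)]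
  unfold XX
  exact ((integrable_const x).add i1).add i2

/-- the stopped processes converge -/
lemma Ito.l1_stop (h : Ito P F K a b M) (x : ℝ) {t : ℝ} (ht : 0 ≤ t) (ht1 : t ≤ 1) :
    Tendsto (fun n : ℕ => ∫ ω, |XX x a M (min t (hit M n ω)) ω - XX x a M t ω| ∂P) atTop
      (𝓝 0) := by
  have hK := h.hK
  have hmm : ∀ n : ℕ, Measurable fun ω => min t (hit M n ω) := fun n =>
    measurable_const.min (h.hitS n).measurable
  have mM : ∀ n : ℕ, Measurable fun ω => M (min t (hit M n ω)) ω := fun n =>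
    h.joint.comp ((hmm n).prodMk measurable_id)
  have pj : Measurable fun z : ℝ × Ω => prim a z.1 z.2 :=
    measurable_uncurry_of_continuous_of_measurable
      (u := fun t ω => prim a t ω) h.da.prim_cont h.da.prim_meas
  have mA : ∀ n : ℕ, Measurable fun ω => prim a (min t (hit M n ω)) ω := fun n =>
    pj.comp ((hmm n).prodMk measurable_id)
  have sM : ∀ n : ℕ, Integrable (fun ω => M (min t (hit M n ω)) ω ^ 2) P ∧
      ∫ ω, M (min t (hit M n ω)) ω ^ 2 ∂P ≤ K := fun n => h.sq (h.hitS n) ⟨t, ht⟩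
  have sM' := h.m_sq ht ht1
  have hev : ∀ ω, ∀ᶠ n : ℕ in atTop, min t (hit M n ω) = t := fun ω => by
    filter_upwards [hit_eventually (h.cont ω)] with n hn
    rw [hn, min_eq_left ht1]
  refine l1_tendsto (B := 4 * (4 * K ^ 2) + 4 * K + 4 * K)
    (fun n => (h.x_joint x).comp ((hmm n).prodMk measurable_id) |>.sub (h.x_meas x t)) ?_ ?_ ?_
  all_goals
    try
      have hb : ∀ n ω, (XX x a M (min t (hit M n ω)) ω - XX x a M t ω) ^ 2 ≤
          4 * (4 * K ^ 2) + 4 * M (min t (hit M n ω)) ω ^ 2 + 4 * M t ω ^ 2 := by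
        intro n ω
        unfold XX
        have h1 := h.da.prim_le hK (min t (hit M n ω)) ω
        have h2 := h.da.prim_le hK t ω
        have h3 : (prim a (min t (hit M n ω)) ω - prim a t ω) ^ 2 ≤ 4 * K ^ 2 := by
          have h4 : |prim a (min t (hit M n ω)) ω - prim a t ω| ≤ 2 * K := by
            have := abs_sub (prim a (min t (hit M n ω)) ω) (prim a t ω)
            linarith
          rw [← sq_abs]
          calc _ ≤ (2 * K) ^ 2 := pow_le_pow_left₀ (abs_nonneg _) h4 2
            _ = _ := by ring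
        nlinarith [sq_nonneg ((prim a (min t (hit M n ω)) ω - prim a t ω) -
          (M (min t (hit M n ω)) ω - M t ω)), sq_nonneg (M (min t (hit M n ω)) ω + M t ω)]
  · intro n
    refine Integrable.mono' (((integrable_const (4 * (4 * K ^ 2))).add
      ((sM n).1.const_mul 4)).add (sM'.1.const_mul 4)) ?_ (ae_of_all _ fun ω => ?_)
    · exact (((h.x_joint x).comp ((hmm n).prodMk measurable_id)).sub
        (h.x_meas x t)).pow_const 2 |>.aestronglyMeasurable
    · rw [Real.norm_eq_abs, abs_of_nonneg (sq_nonneg _)]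
      exact hb n ω
  · intro n
    have i1 : Integrable (fun ω => 4 * (4 * K ^ 2) + 4 * M (min t (hit M n ω)) ω ^ 2) P :=
      (integrable_const (4 * (4 * K ^ 2))).add ((sM n).1.const_mul 4)
    calc _ ≤ ∫ ω, (4 * (4 * K ^ 2) + 4 * M (min t (hit M n ω)) ω ^ 2 + 4 * M t ω ^ 2) ∂P :=
          integral_mono_of_nonneg (ae_of_all _ fun ω => sq_nonneg _)
            (i1.add (sM'.1.const_mul 4)) (ae_of_all _ (hb n))
      _ = 4 * (4 * K ^ 2) + 4 * ∫ ω, M (min t (hit M n ω)) ω ^ 2 ∂P + 4 * ∫ ω, M t ω ^ 2 ∂P := by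
          have e1 : ∫ ω, 4 * M (min t (hit M n ω)) ω ^ 2 ∂P =
            4 * ∫ ω, M (min t (hit M n ω)) ω ^ 2 ∂P := integral_const_mul _ _
          have e2 : ∫ ω, 4 * M t ω ^ 2 ∂P = 4 * ∫ ω, M t ω ^ 2 ∂P := integral_const_mul _ _
          rw [integral_add i1 (sM'.1.const_mul 4), integral_add (integrable_const _)
            ((sM n).1.const_mul 4), e1, e2, integral_const, probReal_univ, one_smul]
      _ ≤ _ := by
          have h1 := (sM n).2
          have h2 := sM'.2
          linarith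
  · intro ω
    refine tendsto_const_nhds.congr' ?_
    filter_upwards [hev ω] with n hn
    rw [hn, sub_self]

/-- the integrand of Ito's formula -/
noncomputable def itoI (j : ℝ → ℝ) (x : ℝ) (a b M : ℝ → Ω → ℝ) (z : ℝ × Ω) : ℝ :=
  deriv j (XX x a M z.1 z.2) * a z.1 z.2 +
    iteratedDeriv 2 j (XX x a M z.1 z.2) * b z.1 z.2 ^ 2 / 2

lemma Ito.itoI_bound (_h : Ito P F K a b M) (x : ℝ) {j : ℝ → ℝ} {L : ℝ} (hj : JC j L) (z : ℝ × Ω) :
    |itoI j x a b M z| ≤ L * |a z.1 z.2| + L * b z.1 z.2 ^ 2 := by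
  unfold itoI
  have hL := hj.nonneg
  refine (abs_add_le _ _).trans ?_
  rw [abs_mul, abs_div, abs_mul, abs_two, abs_of_nonneg (sq_nonneg (b z.1 z.2))]
  have h1 := mul_le_mul_of_nonneg_right (hj.b1 (XX x a M z.1 z.2)) (abs_nonneg (a z.1 z.2))
  have h2 := mul_le_mul_of_nonneg_right (hj.b2 (XX x a M z.1 z.2)) (sq_nonneg (b z.1 z.2))
  have h3 : 0 ≤ L * b z.1 z.2 ^ 2 := by positivity
  linarith

lemma Ito.itoI_meas (h : Ito P F K a b M) (x : ℝ) {j : ℝ → ℝ} {L : ℝ} (hj : JC j L) :
    Measurable (itoI j x a b M) :=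
  ((hj.c1.measurable.comp (h.x_joint x)).mul h.da.meas).add
    (((hj.c2.measurable.comp (h.x_joint x)).mul (h.bm.pow_const 2)).div_const 2)

lemma Ito.itoI_int (h : Ito P F K a b M) (x : ℝ) {j : ℝ → ℝ} {L : ℝ} (hj : JC j L) :
    Integrable (itoI j x a b M) (volume.prod P) := by
  have h1 : Integrable (fun z : ℝ × Ω => a z.1 z.2) (volume.prod P) := h.da.prod
  have h2 : Integrable (fun z : ℝ × Ω => b z.1 z.2 ^ 2) (volume.prod P) := h.db.prod
  exact Integrable.mono' ((h1.abs.const_mul L).add (h2.const_mul L))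
    (h.itoI_meas x hj).aestronglyMeasurable (ae_of_all _ fun z => h.itoI_bound x hj z)

/-- Ito's formula in expectation -/
theorem Ito.dynkin (h : Ito P F K a b M) (x : ℝ) {t : ℝ} (ht : t ∈ Icc (0 : ℝ) 1) {j : ℝ → ℝ}
    {L : ℝ} (hj : JC j L) :
    Integrable (fun z : ℝ × Ω => deriv j (XX x a M z.1 z.2) * a z.1 z.2 +
      iteratedDeriv 2 j (XX x a M z.1 z.2) * b z.1 z.2 ^ 2 / 2)
      ((volume.restrict (Ioo (0 : ℝ) 1)).prod P) ∧
    ∫ ω, j (XX x a M t ω) ∂P = j x + ∫ z in Ioo (0 : ℝ) t ×ˢ univ,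
      (deriv j (XX x a M z.1 z.2) * a z.1 z.2 +
        iteratedDeriv 2 j (XX x a M z.1 z.2) * b z.1 z.2 ^ 2 / 2)
      ∂((volume : Measure ℝ).prod P) := by
  have hint := h.itoI_int x hj
  have hres : ∀ u : ℝ, (volume.restrict (Ioo (0 : ℝ) u)).prod P =
      (volume.prod P).restrict (Ioo (0 : ℝ) u ×ˢ univ) := fun u => by
    rw [← Measure.prod_restrict, Measure.restrict_univ]
  refine ⟨?_, ?_⟩
  · rw [hres]; exact hint.restrict
  rcases ht.1.eq_or_lt with h0 | h0
  · have e1 : ∀ ω, XX x a M t ω = x := fun ω => by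
      rw [← h0]; unfold XX; rw [prim_zero, h.zero]; ring
    simp_rw [e1]
    rw [← h0, Ioo_self, empty_prod, setIntegral_empty, integral_const, probReal_univ, one_smul,
      add_zero]
  set ρ : ℕ → Ω → ℝ := fun n => hit M n with hρ
  -- the stopped formulas
  have hn : ∀ n : ℕ, ∫ ω, j (XX x a M (min t (ρ n ω)) ω) ∂P - j x =
      ∫ z, (if z.1 < ρ n z.2 then itoI j x a b M z else 0)
        ∂((volume.restrict (Ioo 0 t)).prod P) := fun n => by
    have hB : ItoB P F n K (itoCut (ρ n) a) (itoCut (ρ n) fun s ω => b s ω ^ 2) (stp (ρ n) M) :=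
      h.stopped (h.hitS n) (N := n) fun ω s hs hs' =>
      le_of_le_hit (h.cont ω) (h.zero ω) (Nat.cast_nonneg n) hs hs'
    have h1 := hB.dynkin x h0 hj
    have e1 : ∀ ω, XX x (itoCut (ρ n) a) (stp (ρ n) M) t ω = XX x a M (min t (ρ n ω)) ω :=
      fun ω => stp_x h (h.hitS n) x ht.1 ω
    simp_rw [e1] at h1
    rw [h1]
    have mX := hB.x_joint x
    have pa : Integrable (fun z : ℝ × Ω => deriv j (XX x (itoCut (ρ n) a) (stp (ρ n) M) z.1 z.2) *
        itoCut (ρ n) a z.1 z.2) ((volume.restrict (Ioo 0 t)).prod P) := by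
      have i1 : Integrable (fun z : ℝ × Ω => itoCut (ρ n) a z.1 z.2)
          ((volume.restrict (Ioo 0 t)).prod P) := by
        rw [hres]; exact hB.da.prod.restrict
      exact i1.bdd_mul (hj.c1.measurable.comp mX).aestronglyMeasurable (c := L)
        (ae_of_all _ fun z => hj.b1 _)
    have pq : Integrable (fun z : ℝ × Ω =>
        iteratedDeriv 2 j (XX x (itoCut (ρ n) a) (stp (ρ n) M) z.1 z.2) *
        itoCut (ρ n) (fun s ω => b s ω ^ 2) z.1 z.2) ((volume.restrict (Ioo 0 t)).prod P) := by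
      have i1 : Integrable (fun z : ℝ × Ω => itoCut (ρ n) (fun s ω => b s ω ^ 2) z.1 z.2)
          ((volume.restrict (Ioo 0 t)).prod P) := by
        rw [hres]; exact hB.dq.prod.restrict
      exact i1.bdd_mul (hj.c2.measurable.comp mX).aestronglyMeasurable (c := L)
        (ae_of_all _ fun z => hj.b2 _)
    rw [← integral_div, ← integral_add pa (pq.div_const 2)]
    refine integral_congr_ae ?_
    have hpos : ∀ᵐ z : ℝ × Ω ∂((volume.restrict (Ioo 0 t)).prod P), 0 < z.1 :=
      (Measure.quasiMeasurePreserving_fst (μ := volume.restrict (Ioo (0 : ℝ) t)) (ν := P)).ae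
        (p := fun s : ℝ => 0 < s) (by
          filter_upwards [ae_restrict_mem measurableSet_Ioo] with s hs using hs.1)
    filter_upwards [hpos] with z hz
    rw [stp_x h (h.hitS n) x hz.le]
    unfold itoCut itoI
    split_ifs with hc
    · rw [min_eq_left hc.le]
    · simp
  have mρ : ∀ n, MeasurableSet {z : ℝ × Ω | z.1 < ρ n z.2} := fun n =>
    measurableSet_lt measurable_fst ((h.hitS n).measurable.comp measurable_snd)
  have hR : Tendsto (fun n : ℕ => ∫ z, (if z.1 < ρ n z.2 then itoI j x a b M z else 0)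
      ∂((volume.restrict (Ioo 0 t)).prod P)) atTop
      (𝓝 (∫ z, itoI j x a b M z ∂((volume.restrict (Ioo 0 t)).prod P))) := by
    refine tendsto_integral_of_dominated_convergence (fun z => |itoI j x a b M z|)
      (fun n => ((h.itoI_meas x hj).ite (mρ n) measurable_const).aestronglyMeasurable)
      (by rw [hres]; exact hint.abs.restrict) (fun n => ae_of_all _ fun z => ?_) ?_
    · split_ifs
      · exact le_rfl
      · simp
    · have hlt : ∀ᵐ z : ℝ × Ω ∂((volume.restrict (Ioo 0 t)).prod P), z.1 < t :=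
        (Measure.quasiMeasurePreserving_fst (μ := volume.restrict (Ioo (0 : ℝ) t)) (ν := P)).ae
          (p := fun s : ℝ => s < t) (by
            filter_upwards [ae_restrict_mem measurableSet_Ioo] with s hs using hs.2)
      filter_upwards [hlt] with z hz
      refine tendsto_const_nhds.congr' ?_
      filter_upwards [hit_eventually (h.cont z.2)] with n hn
      simp only [hρ, hn]
      rw [if_pos (hz.trans_le ht.2)]
  have hLb : ∀ n : ℕ, |∫ ω, j (XX x a M (min t (ρ n ω)) ω) ∂P - ∫ ω, j (XX x a M t ω) ∂P| ≤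
      L * ∫ ω, |XX x a M (min t (ρ n ω)) ω - XX x a M t ω| ∂P := fun n => by
    have i1 : Integrable (fun ω => XX x a M (min t (ρ n ω)) ω) P := h.x_int_stop x ht.1 (h.hitS n)
    have i2 : Integrable (fun ω => XX x a M t ω) P := by
      have h5 := h.x_int_stop x ht.1 (RStop.one (F := F))
      simpa only [min_eq_left ht.2] using h5
    have hlip : ∀ u v, |j u - j v| ≤ L * |u - v| := fun u v => hj.lip v u
    have j1 : ∀ {Y : Ω → ℝ}, Integrable Y P → Integrable (fun ω => j (Y ω)) P := fun {Y} hY => by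
      refine Integrable.mono' ((integrable_const (|j 0|)).add (hY.abs.const_mul L))
        (hj.smooth.continuous.measurable.comp_aemeasurable hY.aemeasurable).aestronglyMeasurable
        (ae_of_all _ fun ω => ?_)
      have h6 := hlip (Y ω) 0
      rw [sub_zero] at h6
      have h7 := abs_sub_abs_le_abs_sub (j (Y ω)) (j 0)
      rw [Real.norm_eq_abs]
      simp only [Pi.add_apply]
      linarith
    rw [← integral_sub (j1 i1) (j1 i2), ← integral_const_mul]
    refine (abs_integral_le_integral_abs).trans ?_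
    exact integral_mono_of_nonneg (ae_of_all _ fun _ => abs_nonneg _) ((i1.sub i2).abs.const_mul L)
      (ae_of_all _ fun ω => hlip _ _)
  have hLt : Tendsto (fun n : ℕ => ∫ ω, j (XX x a M (min t (ρ n ω)) ω) ∂P - j x) atTop
      (𝓝 (∫ ω, j (XX x a M t ω) ∂P - j x)) := by
    refine Tendsto.sub_const ?_ _
    rw [tendsto_iff_dist_tendsto_zero]
    have h1 := (h.l1_stop x ht.1 ht.2).const_mul L
    rw [mul_zero] at h1
    exact squeeze_zero (fun _ => dist_nonneg) (fun n => hLb n) h1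
  simp_rw [hn] at hLt
  have := tendsto_nhds_unique hLt hR
  rw [hres] at this
  unfold itoI at this
  linarith

end Pool.Agent.W_332fe5
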