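import Pool.Agent.W_332fe5_ito.G

set_option autoImplicit false
set_option linter.unusedSectionVars false

/-!
Ito's formula in expectation, part H: the square of a semimartingale.
-/

open MeasureTheory ProbabilityTheory Set Filter Topology
open scoped ENNReal NNReal

namespace Pool.Agent.W_332fe5

/-- integration by parts -/
lemma int_parts {f g : ℝ → ℝ} {t : ℝ} (hf : IntervalIntegrable f volume 0 t)
    (hg : IntervalIntegrable g volume 0 t) :
    ∫ s in (0 : ℝ)..t, (∫ r in (0 : ℝ)..s, f r) * g s =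
      (∫ r in (0 : ℝ)..t, f r) * (∫ r in (0 : ℝ)..t, g r) -
        ∫ s in (0 : ℝ)..t, f s * ∫ r in (0 : ℝ)..s, g r := by
  have hF := hf.absolutelyContinuousOnInterval_intervalIntegral (c := 0) (by simp)
  have hG := hg.absolutelyContinuousOnInterval_intervalIntegral (c := 0) (by simp)
  have h := hF.integral_mul_deriv_eq_deriv_mul hG
  simp only [intervalIntegral.integral_same, zero_mul, sub_zero] at h
  have e1 : ∫ s in (0 : ℝ)..t, (∫ r in (0 : ℝ)..s, f r) *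
      deriv (fun s => ∫ r in (0 : ℝ)..s, g r) s =
      ∫ s in (0 : ℝ)..t, (∫ r in (0 : ℝ)..s, f r) * g s := by
    refine intervalIntegral.integral_congr_ae ?_
    filter_upwards [hg.ae_hasDerivAt_integral] with x hx hx'
    rw [(hx (uIoc_subset_uIcc hx') 0 (by simp)).deriv]
  have e2 : ∫ s in (0 : ℝ)..t, deriv (fun s => ∫ r in (0 : ℝ)..s, f r) s *
      (∫ r in (0 : ℝ)..s, g r) = ∫ s in (0 : ℝ)..t, f s * ∫ r in (0 : ℝ)..s, g r := by
    refine intervalIntegral.integral_congr_ae ?_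
    filter_upwards [hf.ae_hasDerivAt_integral] with x hx hx'
    rw [(hx (uIoc_subset_uIcc hx') 0 (by simp)).deriv]
  rw [e1, e2] at h
  exact h

variable {Ω : Type} [mΩ : MeasurableSpace Ω] {P : Measure Ω} [IsProbabilityMeasure P]
  {F : Filtration ℝ≥0 mΩ}

lemma mart_pull {N : ℝ≥0 → Ω → ℝ} (hN : Martingale N F P) {s t : ℝ≥0} (hst : s ≤ t) {Y : Ω → ℝ}
    (hY : StronglyMeasurable[F s] Y) (hi : Integrable (fun ω => Y ω * N t ω) P) :
    Integrable (fun ω => Y ω * N s ω) P ∧ ∫ ω, Y ω * N s ω ∂P = ∫ ω, Y ω * N t ω ∂P ∧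
      ∫ ω, |Y ω * N s ω| ∂P ≤ ∫ ω, |Y ω * N t ω| ∂P := by
  have h1 : P[fun ω => Y ω * N t ω | F s] =ᵐ[P] fun ω => Y ω * N s ω := by
    have h2 := condExp_mul_of_stronglyMeasurable_left (μ := P) (m := F s) (f := Y) (g := N t) hY
      (by exact hi) (hN.integrable t)
    refine (show P[fun ω => Y ω * N t ω | F s] =ᵐ[P] Y * P[N t | F s] from h2).trans ?_
    filter_upwards [hN.2 s t hst] with ω hω
    simp [hω]
  refine ⟨integrable_condExp.congr h1, ?_, ?_⟩
  · rw [← integral_congr_ae h1, integral_condExp (F.le s)]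
  · calc ∫ ω, |Y ω * N s ω| ∂P = ∫ ω, |(P[fun ω => Y ω * N t ω | F s]) ω| ∂P :=
        integral_congr_ae (by filter_upwards [h1] with ω hω; rw [hω])
      _ ≤ _ := integral_abs_condExp_le _

variable {K : ℝ} {a b M : ℝ → Ω → ℝ}

lemma Ito.mart1 (h : Ito P F K a b M) : Martingale (fun (t : ℝ≥0) ω => M (min t 1) ω) F P :=
  (h.mart _ RStop.one).1

lemma Ito.m_int (h : Ito P F K a b M) {t : ℝ} (ht : t ∈ Icc (0 : ℝ) 1) : Integrable (M t) P := by
  have h1 := h.mart1.integrable ⟨t, ht.1⟩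
  change Integrable (fun ω => M (min t 1) ω) P at h1
  simpa only [min_eq_left ht.2] using h1

lemma Ito.m_zero (h : Ito P F K a b M) {t : ℝ} (ht : t ∈ Icc (0 : ℝ) 1) : ∫ ω, M t ω ∂P = 0 := by
  have h0 : (0 : ℝ≥0) ≤ ⟨t, ht.1⟩ := bot_le
  have e0 := mart_mul h.mart1 h0 (Y := fun _ => 1) stronglyMeasurable_const (C := 1)
    (fun _ => by simp)
  simp only [one_mul, NNReal.coe_zero] at e0
  change ∫ ω, M (min t 1) ω ∂P = ∫ ω, M (min 0 1) ω ∂P at e0
  rw [min_eq_left ht.2, min_eq_left zero_le_one] at e0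
  rw [e0]
  simp [h.zero]

lemma Ito.m_sq_eq (h : Ito P F K a b M) {t : ℝ} (ht : t ∈ Icc (0 : ℝ) 1) :
    ∫ ω, M t ω ^ 2 ∂P = ∫ ω, prim (fun s ω => b s ω ^ 2) t ω ∂P := by
  have h0 : (0 : ℝ≥0) ≤ ⟨t, ht.1⟩ := bot_le
  have e0 := mart_mul (h.mart _ RStop.one).2 h0 (Y := fun _ => 1) stronglyMeasurable_const (C := 1)
    (fun _ => by simp)
  simp only [one_mul, NNReal.coe_zero] at e0
  change ∫ ω, (M (min t 1) ω ^ 2 - prim (fun s ω => b s ω ^ 2) (min t 1) ω) ∂P =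
    ∫ ω, (M (min 0 1) ω ^ 2 - prim (fun s ω => b s ω ^ 2) (min 0 1) ω) ∂P at e0
  rw [min_eq_left ht.2, min_eq_left zero_le_one] at e0
  have e1 : ∀ ω, M 0 ω ^ 2 - prim (fun s ω => b s ω ^ 2) 0 ω = 0 := fun ω => by
    rw [h.zero, prim_zero]; simp
  simp_rw [e1] at e0
  have i1 : Integrable (fun ω => prim (fun s ω => b s ω ^ 2) t ω) P :=
    int_bdd (h.db.prim_meas t) fun ω => h.db.prim_le h.hK t ω
  rw [integral_sub (h.m_sq ht.1 ht.2).1 i1, integral_zero] at e0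
  linarith

/-- Fubini for densities -/
lemma Dens.fub {f : ℝ → Ω → ℝ} (hf : Dens K f) (hK : 0 ≤ K) {t : ℝ} (ht : 0 ≤ t) {Y : Ω → ℝ}
    (hY : Integrable Y P) :
    Integrable (fun z : ℝ × Ω => f z.1 z.2 * Y z.2) ((volume.restrict (Ioo 0 t)).prod P) ∧
    ∫ z, f z.1 z.2 * Y z.2 ∂((volume.restrict (Ioo 0 t)).prod P) = ∫ ω, prim f t ω * Y ω ∂P := by
  have m1 : AEStronglyMeasurable (fun z : ℝ × Ω => f z.1 z.2 * Y z.2)
      ((volume.restrict (Ioo 0 t)).prod P) :=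
    hf.meas.aestronglyMeasurable.mul (hY.aestronglyMeasurable.comp_snd)
  have i1 : Integrable (fun z : ℝ × Ω => f z.1 z.2 * Y z.2)
      ((volume.restrict (Ioo 0 t)).prod P) := by
    rw [integrable_prod_iff' m1]
    refine ⟨ae_of_all _ fun ω => ?_, ?_⟩
    · exact ((hf.int ω).restrict (s := Ioo 0 t)).mul_const (Y ω)
    · refine Integrable.mono' (hY.abs.const_mul K) ?_ (ae_of_all _ fun ω => ?_)
      · exact (m1.norm.prod_swap).integral_prod_right'
      · rw [Real.norm_eq_abs, abs_of_nonneg (integral_nonneg fun _ => norm_nonneg _)]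
        have e1 : ∀ s, ‖f s ω * Y ω‖ = |f s ω| * |Y ω| := fun s => by
          rw [Real.norm_eq_abs, abs_mul]
        simp only [e1]
        rw [integral_mul_const]
        refine mul_le_mul_of_nonneg_right ?_ (abs_nonneg _)
        exact (setIntegral_le_integral (hf.int ω).abs (ae_of_all _ fun s => abs_nonneg _)).trans
          (hf.abs_le hK ω)
  refine ⟨i1, ?_⟩
  rw [integral_prod_symm _ i1]
  refine integral_congr_ae (ae_of_all _ fun ω => ?_)
  simp only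
  rw [integral_mul_const]
  unfold prim
  rw [intervalIntegral.integral_of_le ht, integral_Ioc_eq_integral_Ioo]

lemma Ito.am (h : Ito P F K a b M) (had : ∀ s : ℝ≥0, StronglyMeasurable[F s] (a s)) {t : ℝ}
    (ht : t ∈ Icc (0 : ℝ) 1) :
    Integrable (fun z : ℝ × Ω => a z.1 z.2 * M z.1 z.2) ((volume.restrict (Ioo 0 t)).prod P) ∧
    ∫ ω, prim a t ω * M t ω ∂P =
      ∫ z, a z.1 z.2 * M z.1 z.2 ∂((volume.restrict (Ioo 0 t)).prod P) := by
  obtain ⟨i1, e1⟩ := h.da.fub (P := P) h.hK ht.1 (h.m_int ht)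
  have m2 : Measurable fun z : ℝ × Ω => a z.1 z.2 * M z.1 z.2 := h.da.meas.mul h.joint
  have key : ∀ᵐ s ∂(volume.restrict (Ioo 0 t)), Integrable (fun ω => a s ω * M s ω) P ∧
      ∫ ω, a s ω * M s ω ∂P = ∫ ω, a s ω * M t ω ∂P ∧
      ∫ ω, |a s ω * M s ω| ∂P ≤ ∫ ω, |a s ω * M t ω| ∂P := by
    filter_upwards [i1.prod_right_ae, ae_restrict_mem measurableSet_Ioo] with s hs hs'
    have hst : (⟨s, hs'.1.le⟩ : ℝ≥0) ≤ ⟨t, ht.1⟩ := hs'.2.le
    have hs1 : s ≤ 1 := hs'.2.le.trans ht.2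
    have h3 := mart_pull h.mart1 hst (Y := a s) (had ⟨s, hs'.1.le⟩)
    change Integrable (fun ω => a s ω * M (min t 1) ω) P →
      Integrable (fun ω => a s ω * M (min s 1) ω) P ∧
      ∫ ω, a s ω * M (min s 1) ω ∂P = ∫ ω, a s ω * M (min t 1) ω ∂P ∧
      ∫ ω, |a s ω * M (min s 1) ω| ∂P ≤ ∫ ω, |a s ω * M (min t 1) ω| ∂P at h3
    rw [min_eq_left ht.2, min_eq_left hs1] at h3
    exact h3 hs
  have i2 : Integrable (fun z : ℝ × Ω => a z.1 z.2 * M z.1 z.2)
      ((volume.restrict (Ioo 0 t)).prod P) := by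
    rw [integrable_prod_iff m2.aestronglyMeasurable]
    refine ⟨key.mono fun s hs => hs.1, ?_⟩
    refine Integrable.mono' i1.integral_norm_prod_left ?_ (key.mono fun s hs => ?_)
    · exact (m2.aestronglyMeasurable.norm).integral_prod_right'
    · rw [Real.norm_eq_abs, abs_of_nonneg (integral_nonneg fun _ => norm_nonneg _)]
      exact hs.2.2
  refine ⟨i2, ?_⟩
  rw [← e1, integral_prod _ i1, integral_prod _ i2]
  exact integral_congr_ae (key.mono fun s hs => hs.2.1.symm)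

lemma Dens.sq {f : ℝ → Ω → ℝ} (hf : Dens K f) {t : ℝ} (ht : 0 ≤ t) (ω : Ω) :
    prim f t ω ^ 2 = 2 * ∫ s in Ioo 0 t, f s ω * prim f s ω := by
  have i1 : IntervalIntegrable (fun s => f s ω) volume 0 t := (hf.int ω).intervalIntegrable
  have h1 := int_parts i1 i1
  have e1 : ∫ s in (0 : ℝ)..t, (∫ r in (0 : ℝ)..s, f r ω) * f s ω =
      ∫ s in (0 : ℝ)..t, f s ω * ∫ r in (0 : ℝ)..s, f r ω := by
    exact intervalIntegral.integral_congr fun s _ => mul_comm _ _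
  rw [e1] at h1
  unfold prim
  rw [← integral_Ioc_eq_integral_Ioo, ← intervalIntegral.integral_of_le ht]
  nlinarith

lemma Dens.aA {f : ℝ → Ω → ℝ} (hf : Dens K f) (hK : 0 ≤ K) {t : ℝ} (ht : 0 ≤ t) :
    Integrable (fun z : ℝ × Ω => f z.1 z.2 * prim f z.1 z.2) ((volume.restrict (Ioo 0 t)).prod P) ∧
    ∫ ω, prim f t ω ^ 2 ∂P =
      2 * ∫ z, f z.1 z.2 * prim f z.1 z.2 ∂((volume.restrict (Ioo 0 t)).prod P) := by
  have pj : Measurable fun z : ℝ × Ω => prim f z.1 z.2 :=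
    measurable_uncurry_of_continuous_of_measurable
      (u := fun t ω => prim f t ω) hf.prim_cont hf.prim_meas
  have i0 : Integrable (fun z : ℝ × Ω => f z.1 z.2) ((volume.restrict (Ioo 0 t)).prod P) := by
    have : (volume.restrict (Ioo (0 : ℝ) t)).prod P =
        (volume.prod P).restrict (Ioo (0 : ℝ) t ×ˢ univ) := by
      rw [← Measure.prod_restrict, Measure.restrict_univ]
    rw [this]
    exact (hf.prod (P := P)).restrict
  have i1 : Integrable (fun z : ℝ × Ω => f z.1 z.2 * prim f z.1 z.2)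
      ((volume.restrict (Ioo 0 t)).prod P) :=
    i0.mul_bdd pj.aestronglyMeasurable (c := K) (ae_of_all _ fun z => hf.prim_le hK z.1 z.2)
  refine ⟨i1, ?_⟩
  rw [integral_prod_symm _ i1, ← integral_const_mul]
  exact integral_congr_ae (ae_of_all _ fun ω => hf.sq ht ω)

/-- the square of `X` -/
theorem Ito.square (h : Ito P F K a b M) (had : ∀ s : ℝ≥0, StronglyMeasurable[F s] (a s)) (x : ℝ)
    {t : ℝ} (ht : t ∈ Icc (0 : ℝ) 1) :
    Integrable (fun ω => XX x a M t ω ^ 2) P ∧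
    Integrable (fun z : ℝ × Ω => 2 * (a z.1 z.2 * XX x a M z.1 z.2) + b z.1 z.2 ^ 2)
      ((volume.restrict (Ioo 0 t)).prod P) ∧
    ∫ ω, XX x a M t ω ^ 2 ∂P = x ^ 2 +
      ∫ z, (2 * (a z.1 z.2 * XX x a M z.1 z.2) + b z.1 z.2 ^ 2)
        ∂((volume.restrict (Ioo 0 t)).prod P) := by
  have hK := h.hK
  obtain ⟨iam, eam⟩ := h.am had ht
  obtain ⟨iaA, eaA⟩ := h.da.aA (P := P) hK ht.1
  obtain ⟨ia, ea⟩ := h.da.fub (P := P) hK ht.1 (integrable_const (1 : ℝ))
  obtain ⟨ib, eb⟩ := h.db.fub (P := P) hK ht.1 (integrable_const (1 : ℝ))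
  simp only [mul_one] at ia ea ib eb
  have iA : Integrable (prim a t) P := int_bdd (h.da.prim_meas t) fun ω => h.da.prim_le hK t ω
  have iA2 : Integrable (fun ω => prim a t ω ^ 2) P :=
    int_bdd ((h.da.prim_meas t).pow_const 2) (C := K ^ 2) fun ω => by
      rw [abs_pow]
      exact pow_le_pow_left₀ (abs_nonneg _) (h.da.prim_le hK t ω) 2
  have iM := h.m_int ht
  have iM2 := (h.m_sq ht.1 ht.2).1
  have iAM : Integrable (fun ω => prim a t ω * M t ω) P :=
    iM.bdd_mul (h.da.prim_meas t).aestronglyMeasurable (c := K)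
      (ae_of_all _ fun ω => h.da.prim_le hK t ω)
  have eX : ∀ ω, XX x a M t ω ^ 2 = x ^ 2 + 2 * x * prim a t ω + prim a t ω ^ 2 +
      2 * x * M t ω + 2 * (prim a t ω * M t ω) + M t ω ^ 2 := fun ω => by
    unfold XX; ring
  have eI : ∀ z : ℝ × Ω, 2 * (a z.1 z.2 * XX x a M z.1 z.2) + b z.1 z.2 ^ 2 =
      2 * x * a z.1 z.2 + 2 * (a z.1 z.2 * prim a z.1 z.2) + 2 * (a z.1 z.2 * M z.1 z.2) +
        b z.1 z.2 ^ 2 := fun z => by
    unfold XX; ring
  simp_rw [eX, eI]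
  have j1 := (integrable_const (μ := P) (x ^ 2)).add (iA.const_mul (2 * x))
  have j2 := j1.add iA2
  have j3 := j2.add (iM.const_mul (2 * x))
  have j4 := j3.add (iAM.const_mul 2)
  have k1 := (ia.const_mul (2 * x)).add (iaA.const_mul 2)
  have k2 := k1.add (iam.const_mul 2)
  refine ⟨j4.add iM2, k2.add ib, ?_⟩
  have f1 : ∫ ω, (x ^ 2 + 2 * x * prim a t ω + prim a t ω ^ 2 + 2 * x * M t ω +
      2 * (prim a t ω * M t ω) + M t ω ^ 2) ∂P = x ^ 2 + 2 * x * ∫ ω, prim a t ω ∂P +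
      ∫ ω, prim a t ω ^ 2 ∂P + 2 * x * ∫ ω, M t ω ∂P + 2 * ∫ ω, prim a t ω * M t ω ∂P +
      ∫ ω, M t ω ^ 2 ∂P := by
    rw [integral_add (by exact j4) iM2, integral_add (by exact j3) (iAM.const_mul 2),
      integral_add (by exact j2) (iM.const_mul (2 * x)), integral_add (by exact j1) iA2,
      integral_add (integrable_const _) (iA.const_mul (2 * x)), integral_const, probReal_univ,
      one_smul]
    simp only [integral_const_mul]
  have f2 : ∫ z : ℝ × Ω, (2 * x * a z.1 z.2 + 2 * (a z.1 z.2 * prim a z.1 z.2) +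
      2 * (a z.1 z.2 * M z.1 z.2) + b z.1 z.2 ^ 2) ∂((volume.restrict (Ioo 0 t)).prod P) =
      2 * x * ∫ z : ℝ × Ω, a z.1 z.2 ∂((volume.restrict (Ioo 0 t)).prod P) +
      2 * ∫ z : ℝ × Ω, a z.1 z.2 * prim a z.1 z.2 ∂((volume.restrict (Ioo 0 t)).prod P) +
      2 * ∫ z : ℝ × Ω, a z.1 z.2 * M z.1 z.2 ∂((volume.restrict (Ioo 0 t)).prod P) +
      ∫ z : ℝ × Ω, b z.1 z.2 ^ 2 ∂((volume.restrict (Ioo 0 t)).prod P) := by
    rw [integral_add (by exact k2) ib, integral_add (by exact k1) (iam.const_mul 2),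
      integral_add (ia.const_mul (2 * x)) (iaA.const_mul 2)]
    simp only [integral_const_mul]
  rw [f1, f2, h.m_zero ht, h.m_sq_eq ht, eam, eaA, ea, eb]
  ring

end Pool.Agent.W_332fe5
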