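import Pool.Agent.W_332fe5_ito.H

set_option autoImplicit false
set_option linter.unusedSectionVars false

/-!
Ito's formula in expectation, part I: the product formula with a deterministic weight.
-/

open MeasureTheory ProbabilityTheory Set Filter Topology
open scoped ENNReal NNReal

namespace Pool.Agent.W_332fe5

variable {Ω : Type} [mΩ : MeasurableSpace Ω] {P : Measure Ω} [IsProbabilityMeasure P]
  {F : Filtration ℝ≥0 mΩ}

lemma prod_res (u : ℝ) : (volume.restrict (Ioo (0 : ℝ) u)).prod P =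
    (volume.prod P).restrict (Ioo (0 : ℝ) u ×ˢ univ) := by
  rw [← Measure.prod_restrict, Measure.restrict_univ]

lemma ae_fst {p : ℝ → Prop} {u : ℝ} (h : ∀ s ∈ Ioo (0 : ℝ) u, p s) :
    ∀ᵐ z : ℝ × Ω ∂((volume.restrict (Ioo (0 : ℝ) u)).prod P), p z.1 :=
  (Measure.quasiMeasurePreserving_fst (μ := volume.restrict (Ioo (0 : ℝ) u)) (ν := P)).ae
    (p := p) (by filter_upwards [ae_restrict_mem measurableSet_Ioo] with s hs using h s hs)

open Classical in
/-- the indicator of `s < S` -/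
noncomputable def ind (S : Ω → ℝ) (z : ℝ × Ω) : ℝ := if z.1 < S z.2 then 1 else 0

lemma ind_meas {S : Ω → ℝ} (hS : Measurable S) : Measurable (ind S) := by
  unfold ind
  exact Measurable.ite (measurableSet_lt measurable_fst (hS.comp measurable_snd))
    measurable_const measurable_const

lemma ind_le (S : Ω → ℝ) (z : ℝ × Ω) : ‖ind S z‖ ≤ 1 := by
  unfold ind
  split_ifs <;> simp

/-- the weight is absolutely continuous -/
lemma weight_ftc {η : ℝ → ℝ} (hη : ContDiff ℝ 1 η) {S : Ω → ℝ} {ω : Ω} (h0 : 0 ≤ S ω) {t : ℝ}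
    (ht : 0 ≤ t) : ∫ s in Ioo (0 : ℝ) t, ind S (s, ω) * deriv η s = η (min t (S ω)) - η 0 := by
  have hm : 0 ≤ min t (S ω) := le_min ht h0
  have e1 : ∫ s in Ioo (0 : ℝ) t, ind S (s, ω) * deriv η s =
      ∫ s in Ioo (0 : ℝ) (min t (S ω)), deriv η s := by
    rw [← integral_indicator measurableSet_Ioo, ← integral_indicator measurableSet_Ioo]
    refine integral_congr_ae (ae_of_all _ fun s => ?_)
    unfold ind
    simp only [indicator, mem_Ioo, lt_min_iff]
    by_cases h1 : 0 < s <;> by_cases h2 : s < t <;> by_cases h3 : s < S ω <;> simp [h1, h2, h3]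
  rw [e1, ← integral_Ioc_eq_integral_Ioo, ← intervalIntegral.integral_of_le hm]
  exact intervalIntegral.integral_deriv_eq_sub (fun s _ => hη.differentiable (by norm_num) s)
    ((hη.continuous_deriv le_rfl).intervalIntegrable _ _)

theorem weight {Z z : ℝ → Ω → ℝ} {S : Ω → ℝ} {c C : ℝ} {η : ℝ → ℝ} (hη : ContDiff ℝ 1 η)
    (hS : Measurable S) (hS0 : ∀ ω, 0 ≤ S ω)
    (hZm : Measurable fun p : ℝ × Ω => Z p.1 p.2)
    (hZi : ∀ t ∈ Icc (0 : ℝ) 1, Integrable (Z t) P ∧ ∫ ω, |Z t ω| ∂P ≤ C)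
    (hzi : Integrable (fun p : ℝ × Ω => z p.1 p.2) ((volume.restrict (Ioo (0 : ℝ) 1)).prod P))
    (hE : ∀ t ∈ Icc (0 : ℝ) 1, ∫ ω, Z t ω ∂P =
      c + ∫ p : ℝ × Ω, z p.1 p.2 ∂((volume.restrict (Ioo (0 : ℝ) t)).prod P))
    (hstop : ∀ s t ω, 0 ≤ s → s ≤ t → t ≤ 1 → S ω ≤ s → Z t ω = Z s ω)
    (hkill : ∀ s ω, 0 < s → S ω ≤ s → z s ω = 0) {t : ℝ} (ht : t ∈ Icc (0 : ℝ) 1) :
    Integrable (fun p : ℝ × Ω => ind S p * (deriv η p.1 * Z p.1 p.2 + η p.1 * z p.1 p.2))
      ((volume.restrict (Ioo (0 : ℝ) 1)).prod P) ∧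
    ∫ ω, η (min t (S ω)) * Z t ω ∂P = η 0 * c +
      ∫ p : ℝ × Ω, ind S p * (deriv η p.1 * Z p.1 p.2 + η p.1 * z p.1 p.2)
        ∂((volume.restrict (Ioo (0 : ℝ) t)).prod P) := by
  have hc' : Continuous (deriv η) := hη.continuous_deriv le_rfl
  have hc : Continuous η := hη.continuous
  obtain ⟨D, hD⟩ : ∃ D : ℝ, ∀ s ∈ Icc (0 : ℝ) 1, ‖deriv η s‖ ≤ D :=
    isCompact_Icc.exists_bound_of_continuousOn hc'.continuousOn
  obtain ⟨D', hD'⟩ : ∃ D : ℝ, ∀ s ∈ Icc (0 : ℝ) 1, ‖η s‖ ≤ D :=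
    isCompact_Icc.exists_bound_of_continuousOn hc.continuousOn
  have mind := ind_meas hS
  have hle : (volume.restrict (Ioo (0 : ℝ) t)).prod P ≤ (volume.restrict (Ioo (0 : ℝ) 1)).prod P := by
    rw [prod_res, prod_res]
    exact Measure.restrict_mono (prod_mono (Ioo_subset_Ioo_right ht.2) subset_rfl) le_rfl
  -- integrability of `Z`
  have iZ : Integrable (fun p : ℝ × Ω => Z p.1 p.2) ((volume.restrict (Ioo (0 : ℝ) 1)).prod P) := by
    rw [integrable_prod_iff hZm.aestronglyMeasurable]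
    have h1 : ∀ᵐ s ∂(volume.restrict (Ioo (0 : ℝ) 1)), s ∈ Icc (0 : ℝ) 1 := by
      filter_upwards [ae_restrict_mem measurableSet_Ioo] with s hs using Ioo_subset_Icc_self hs
    refine ⟨h1.mono fun s hs => (hZi s hs).1, ?_⟩
    refine Integrable.mono' (integrable_const C) ?_ (h1.mono fun s hs => ?_)
    · exact (hZm.aestronglyMeasurable.norm).integral_prod_right'
    · rw [Real.norm_eq_abs, abs_of_nonneg (integral_nonneg fun _ => norm_nonneg _)]
      exact (hZi s hs).2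
  have bη : ∀ᵐ p : ℝ × Ω ∂((volume.restrict (Ioo (0 : ℝ) 1)).prod P), ‖η p.1‖ ≤ D' :=
    ae_fst fun s hs => hD' s (Ioo_subset_Icc_self hs)
  have bη' : ∀ᵐ p : ℝ × Ω ∂((volume.restrict (Ioo (0 : ℝ) 1)).prod P), ‖deriv η p.1‖ ≤ D :=
    ae_fst fun s hs => hD s (Ioo_subset_Icc_self hs)
  have mη : AEStronglyMeasurable (fun p : ℝ × Ω => η p.1)
      ((volume.restrict (Ioo (0 : ℝ) 1)).prod P) :=
    (hc.measurable.comp measurable_fst).aestronglyMeasurable
  have mη' : AEStronglyMeasurable (fun p : ℝ × Ω => deriv η p.1)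
      ((volume.restrict (Ioo (0 : ℝ) 1)).prod P) :=
    (hc'.measurable.comp measurable_fst).aestronglyMeasurable
  have i1 : Integrable (fun p : ℝ × Ω => deriv η p.1 * Z p.1 p.2)
      ((volume.restrict (Ioo (0 : ℝ) 1)).prod P) := iZ.bdd_mul mη' bη'
  have i2 : Integrable (fun p : ℝ × Ω => η p.1 * z p.1 p.2)
      ((volume.restrict (Ioo (0 : ℝ) 1)).prod P) := hzi.bdd_mul mη bη
  have i3 : Integrable (fun p : ℝ × Ω => ind S p * (deriv η p.1 * Z p.1 p.2))
      ((volume.restrict (Ioo (0 : ℝ) 1)).prod P) :=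
    i1.bdd_mul mind.aestronglyMeasurable (ae_of_all _ (ind_le S))
  have i4 : Integrable (fun p : ℝ × Ω => ind S p * (η p.1 * z p.1 p.2))
      ((volume.restrict (Ioo (0 : ℝ) 1)).prod P) :=
    i2.bdd_mul mind.aestronglyMeasurable (ae_of_all _ (ind_le S))
  refine ⟨?_, ?_⟩
  · simp only [mul_add]
    exact i3.add i4
  have iZt := (hZi t ht).1
  -- Fubini for the weight
  have m5 : AEStronglyMeasurable (fun p : ℝ × Ω => ind S p * deriv η p.1 * Z t p.2)
      ((volume.restrict (Ioo (0 : ℝ) t)).prod P) :=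
    (mind.aestronglyMeasurable.mul
      (hc'.measurable.comp measurable_fst).aestronglyMeasurable).mul
      iZt.aestronglyMeasurable.comp_snd
  have iconst : Integrable (fun p : ℝ × Ω => Z t p.2) ((volume.restrict (Ioo (0 : ℝ) t)).prod P) :=
    iZt.comp_snd _
  have i5 : Integrable (fun p : ℝ × Ω => ind S p * deriv η p.1 * Z t p.2)
      ((volume.restrict (Ioo (0 : ℝ) t)).prod P) := by
    refine iconst.bdd_mul (c := D) (mind.aestronglyMeasurable.mul
      (hc'.measurable.comp measurable_fst).aestronglyMeasurable) ?_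
    refine (bη'.filter_mono (ae_mono hle)).mono fun p hp => ?_
    rw [norm_mul]
    calc ‖ind S p‖ * ‖deriv η p.1‖ ≤ 1 * ‖deriv η p.1‖ :=
          mul_le_mul_of_nonneg_right (ind_le S p) (norm_nonneg _)
      _ ≤ D := by rw [one_mul]; exact hp
  have e5 : ∫ ω, (η (min t (S ω)) - η 0) * Z t ω ∂P =
      ∫ p : ℝ × Ω, ind S p * deriv η p.1 * Z t p.2 ∂((volume.restrict (Ioo (0 : ℝ) t)).prod P) := by
    rw [integral_prod_symm _ i5]
    refine integral_congr_ae (ae_of_all _ fun ω => ?_)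
    simp only
    rw [integral_mul_const, weight_ftc hη (hS0 ω) ht.1]
  -- the split
  have i3t : Integrable (fun p : ℝ × Ω => ind S p * (deriv η p.1 * Z p.1 p.2))
      ((volume.restrict (Ioo (0 : ℝ) t)).prod P) := i3.mono_measure hle
  have i4t : Integrable (fun p : ℝ × Ω => ind S p * (η p.1 * z p.1 p.2))
      ((volume.restrict (Ioo (0 : ℝ) t)).prod P) := i4.mono_measure hle
  have i2t : Integrable (fun p : ℝ × Ω => η p.1 * z p.1 p.2)
      ((volume.restrict (Ioo (0 : ℝ) t)).prod P) := i2.mono_measure hle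
  have iZt' : Integrable (fun p : ℝ × Ω => Z t p.2 - Z p.1 p.2)
      ((volume.restrict (Ioo (0 : ℝ) t)).prod P) := iconst.sub (iZ.mono_measure hle)
  have i6 : Integrable (fun p : ℝ × Ω => deriv η p.1 * (Z t p.2 - Z p.1 p.2))
      ((volume.restrict (Ioo (0 : ℝ) t)).prod P) :=
    iZt'.bdd_mul (mη'.mono_measure hle) (bη'.filter_mono (ae_mono hle))
  have e6 : ∫ p : ℝ × Ω, ind S p * deriv η p.1 * Z t p.2
      ∂((volume.restrict (Ioo (0 : ℝ) t)).prod P) =
      ∫ p : ℝ × Ω, ind S p * (deriv η p.1 * Z p.1 p.2)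
        ∂((volume.restrict (Ioo (0 : ℝ) t)).prod P) +
      ∫ p : ℝ × Ω, deriv η p.1 * (Z t p.2 - Z p.1 p.2)
        ∂((volume.restrict (Ioo (0 : ℝ) t)).prod P) := by
    rw [← integral_add i3t i6]
    have h1 : ∀ᵐ p : ℝ × Ω ∂((volume.restrict (Ioo (0 : ℝ) t)).prod P), 0 < p.1 ∧ p.1 < t :=
      ae_fst fun s hs => hs
    refine integral_congr_ae (h1.mono fun p hp => ?_)
    simp only
    unfold ind
    split_ifs with h2
    · ring
    · rw [hstop p.1 t p.2 hp.1.le hp.2.le ht.2 (not_lt.1 h2)]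
      ring
  set ζ : ℝ → ℝ := fun r => ∫ ω, z r ω ∂P with hζ
  have iζ : IntegrableOn ζ (Ioo (0 : ℝ) 1) := hzi.integral_prod_left
  have iζ' : ∀ s ∈ Icc (0 : ℝ) 1, IntervalIntegrable ζ volume 0 s := fun s hs => by
    rw [intervalIntegrable_iff_integrableOn_Ioo_of_le hs.1]
    exact iζ.mono_set (Ioo_subset_Ioo_right hs.2)
  have hΦ : ∀ s ∈ Icc (0 : ℝ) 1, ∫ p : ℝ × Ω, z p.1 p.2
      ∂((volume.restrict (Ioo (0 : ℝ) s)).prod P) = ∫ r in (0 : ℝ)..s, ζ r := fun s hs => by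
    have hle' : (volume.restrict (Ioo (0 : ℝ) s)).prod P ≤
        (volume.restrict (Ioo (0 : ℝ) 1)).prod P := by
      rw [prod_res, prod_res]
      exact Measure.restrict_mono (prod_mono (Ioo_subset_Ioo_right hs.2) subset_rfl) le_rfl
    rw [integral_prod _ (hzi.mono_measure hle'), intervalIntegral.integral_of_le hs.1,
      integral_Ioc_eq_integral_Ioo]
  have e7 : ∫ p : ℝ × Ω, deriv η p.1 * (Z t p.2 - Z p.1 p.2)
      ∂((volume.restrict (Ioo (0 : ℝ) t)).prod P) =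
      ∫ s in (0 : ℝ)..t, deriv η s * ((∫ r in (0 : ℝ)..t, ζ r) - ∫ r in (0 : ℝ)..s, ζ r) := by
    rw [integral_prod _ i6, intervalIntegral.integral_of_le ht.1, integral_Ioc_eq_integral_Ioo]
    refine integral_congr_ae ?_
    filter_upwards [ae_restrict_mem measurableSet_Ioo] with s hs
    have hs' : s ∈ Icc (0 : ℝ) 1 := ⟨hs.1.le, hs.2.le.trans ht.2⟩
    rw [integral_const_mul, integral_sub iZt (hZi s hs').1, hE t ht, hE s hs', hΦ t ht, hΦ s hs']
    ring
  have e8 := int_parts (f := deriv η) (g := ζ) (t := t) (hc'.intervalIntegrable _ _) (iζ' t ht)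
  have hftc : ∀ s, ∫ r in (0 : ℝ)..s, deriv η r = η s - η 0 := fun s =>
    intervalIntegral.integral_deriv_eq_sub (fun s _ => hη.differentiable (by norm_num) s)
      (hc'.intervalIntegrable _ _)
  simp only [hftc] at e8
  have e9 : ∫ p : ℝ × Ω, ind S p * (η p.1 * z p.1 p.2)
      ∂((volume.restrict (Ioo (0 : ℝ) t)).prod P) = ∫ s in (0 : ℝ)..t, η s * ζ s := by
    have h2 : ∫ p : ℝ × Ω, ind S p * (η p.1 * z p.1 p.2)
        ∂((volume.restrict (Ioo (0 : ℝ) t)).prod P) =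
        ∫ p : ℝ × Ω, η p.1 * z p.1 p.2 ∂((volume.restrict (Ioo (0 : ℝ) t)).prod P) := by
      have h1 : ∀ᵐ p : ℝ × Ω ∂((volume.restrict (Ioo (0 : ℝ) t)).prod P), 0 < p.1 ∧ p.1 < t :=
        ae_fst fun s hs => hs
      refine integral_congr_ae (h1.mono fun p hp => ?_)
      simp only
      unfold ind
      split_ifs with h2
      · ring
      · rw [hkill p.1 p.2 hp.1 (not_lt.1 h2)]
        ring
    rw [h2, integral_prod _ i2t, intervalIntegral.integral_of_le ht.1,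
      integral_Ioc_eq_integral_Ioo]
    refine integral_congr_ae (ae_of_all _ fun s => ?_)
    simp only
    rw [integral_const_mul]
  have iΦc : Continuous fun s => ∫ r in (0 : ℝ)..s, (indicator (Ioo (0 : ℝ) 1) ζ) r := by
    refine intervalIntegral.continuous_primitive (fun u v => ?_) 0
    exact ((integrable_indicator_iff measurableSet_Ioo).2 iζ).intervalIntegrable
  have hΦc : ContinuousOn (fun s => ∫ r in (0 : ℝ)..s, ζ r) (uIcc 0 t) := by
    refine iΦc.continuousOn.congr fun s hs => ?_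
    rw [uIcc_of_le ht.1] at hs
    change ∫ r in (0 : ℝ)..s, ζ r = ∫ r in (0 : ℝ)..s, (indicator (Ioo (0 : ℝ) 1) ζ) r
    rw [intervalIntegral.integral_of_le hs.1, intervalIntegral.integral_of_le hs.1,
      integral_Ioc_eq_integral_Ioo, integral_Ioc_eq_integral_Ioo]
    refine setIntegral_congr_fun measurableSet_Ioo fun r hr => ?_
    rw [indicator_of_mem (show r ∈ Ioo (0 : ℝ) 1 from ⟨hr.1, hr.2.trans_le (hs.2.trans ht.2)⟩)]
  have j1 : IntervalIntegrable (fun s => deriv η s * ∫ r in (0 : ℝ)..t, ζ r) volume 0 t :=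
    (hc'.mul continuous_const).intervalIntegrable _ _
  have j2 : IntervalIntegrable (fun s => deriv η s * ∫ r in (0 : ℝ)..s, ζ r) volume 0 t :=
    (hc'.continuousOn.mul hΦc).intervalIntegrable
  have e10 : ∫ s in (0 : ℝ)..t, deriv η s * ((∫ r in (0 : ℝ)..t, ζ r) - ∫ r in (0 : ℝ)..s, ζ r) =
      (η t - η 0) * (∫ r in (0 : ℝ)..t, ζ r) - ∫ s in (0 : ℝ)..t, deriv η s *
        ∫ r in (0 : ℝ)..s, ζ r := by
    simp only [mul_sub]
    rw [intervalIntegral.integral_sub j1 j2, intervalIntegral.integral_mul_const, hftc]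
  have j3 : IntervalIntegrable (fun s => η s * ζ s) volume 0 t :=
    (iζ' t ht).continuousOn_mul hc.continuousOn
  have e11 : ∫ s in (0 : ℝ)..t, (η s - η 0) * ζ s = (∫ s in (0 : ℝ)..t, η s * ζ s) -
      η 0 * ∫ r in (0 : ℝ)..t, ζ r := by
    simp only [sub_mul]
    rw [intervalIntegral.integral_sub j3 ((iζ' t ht).const_mul (η 0)),
      intervalIntegral.integral_const_mul]
  have iη : Integrable (fun ω => (η (min t (S ω)) - η 0) * Z t ω) P := by
    refine iZt.bdd_mul (c := 2 * D') ?_ (ae_of_all _ fun ω => ?_)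
    · exact ((hc.measurable.comp (measurable_const.min hS)).sub
        measurable_const).aestronglyMeasurable
    · have h1 := hD' (min t (S ω)) ⟨le_min ht.1 (hS0 ω), (min_le_left _ _).trans ht.2⟩
      have h2 := hD' 0 ⟨le_rfl, zero_le_one⟩
      exact (norm_sub_le _ _).trans (by linarith)
  have e12 : ∫ ω, η (min t (S ω)) * Z t ω ∂P =
      ∫ ω, (η (min t (S ω)) - η 0) * Z t ω ∂P + η 0 * ∫ ω, Z t ω ∂P := by
    rw [← integral_const_mul, ← integral_add iη (iZt.const_mul (η 0))]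
    refine integral_congr_ae (ae_of_all _ fun ω => ?_)
    simp only
    ring
  rw [e12, e5, e6, e7, e10, hE t ht, hΦ t ht]
  have e13 : ∫ p : ℝ × Ω, ind S p * (deriv η p.1 * Z p.1 p.2 + η p.1 * z p.1 p.2)
      ∂((volume.restrict (Ioo (0 : ℝ) t)).prod P) =
      ∫ p : ℝ × Ω, ind S p * (deriv η p.1 * Z p.1 p.2)
        ∂((volume.restrict (Ioo (0 : ℝ) t)).prod P) + ∫ s in (0 : ℝ)..t, η s * ζ s := by
    rw [← e9, ← integral_add i3t i4t]
    refine integral_congr_ae (ae_of_all _ fun p => ?_)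
    simp only
    ring
  rw [e13]
  rw [e11] at e8
  linarith

variable {K : ℝ} {a b M : ℝ → Ω → ℝ}

lemma Ito.x_sq_le (h : Ito P F K a b M) (x : ℝ) {t : ℝ} (ht : t ∈ Icc (0 : ℝ) 1) : ∫ ω, XX x a M t ω ^ 2 ∂P ≤ 3 * (x ^ 2 + K ^ 2) + 3 * K := by
  have h1 := h.m_sq ht.1 ht.2
  have hb : ∀ ω, XX x a M t ω ^ 2 ≤ 3 * (x ^ 2 + K ^ 2) + 3 * M t ω ^ 2 := fun ω => by
    have h2 := h.da.prim_le h.hK t ω
    have h3 : prim a t ω ^ 2 ≤ K ^ 2 := by
      rw [← sq_abs]
      exact pow_le_pow_left₀ (abs_nonneg _) h2 2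
    unfold XX
    nlinarith [sq_nonneg (x - prim a t ω), sq_nonneg (x - M t ω), sq_nonneg (prim a t ω - M t ω)]
  calc ∫ ω, XX x a M t ω ^ 2 ∂P ≤ ∫ ω, (3 * (x ^ 2 + K ^ 2) + 3 * M t ω ^ 2) ∂P :=
        integral_mono_of_nonneg (ae_of_all _ fun _ => sq_nonneg _)
          ((integrable_const _).add (h1.1.const_mul 3)) (ae_of_all _ hb)
    _ = 3 * (x ^ 2 + K ^ 2) + 3 * ∫ ω, M t ω ^ 2 ∂P := by
        rw [integral_add (integrable_const _) (h1.1.const_mul 3), integral_const, probReal_univ,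
          one_smul, integral_const_mul]
    _ ≤ _ := by linarith [h1.2]

/-- the product formula with a deterministic weight, in expectation -/
theorem Ito.product {K' K'' : ℝ} {a' b' M' : ℝ → Ω → ℝ} (h : Ito P F K a b M)
    (h' : Ito P F K' a' b' M')
    (hs : Ito P F K'' (fun s ω => a s ω + a' s ω) (fun s ω => b s ω + b' s ω)
      (fun s ω => M s ω + M' s ω))
    (had : ∀ s : ℝ≥0, StronglyMeasurable[F s] (a s))
    (had' : ∀ s : ℝ≥0, StronglyMeasurable[F s] (a' s))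
    {S : Ω → ℝ} (hS : Measurable S) (hS0 : ∀ ω, 0 ≤ S ω)
    (hstop : ∀ s t ω, 0 ≤ s → s ≤ t → t ≤ 1 → S ω ≤ s → M t ω = M s ω)
    (hstop' : ∀ s t ω, 0 ≤ s → s ≤ t → t ≤ 1 → S ω ≤ s → M' t ω = M' s ω)
    (ka : ∀ s ω, 0 < s → S ω ≤ s → a s ω = 0) (kb : ∀ s ω, 0 < s → S ω ≤ s → b s ω = 0)
    (ka' : ∀ s ω, 0 < s → S ω ≤ s → a' s ω = 0)
    (x x' : ℝ) {η : ℝ → ℝ} (hη : ContDiff ℝ 1 η) {t : ℝ} (ht : t ∈ Icc (0 : ℝ) 1) :
    Integrable (fun z : ℝ × Ω => ind S z * (deriv η z.1 * (XX x a M z.1 z.2 * XX x' a' M' z.1 z.2) +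
      η z.1 * (a z.1 z.2 * XX x' a' M' z.1 z.2 + a' z.1 z.2 * XX x a M z.1 z.2 +
        b z.1 z.2 * b' z.1 z.2))) ((volume.restrict (Ioo (0 : ℝ) 1)).prod P) ∧
    ∫ ω, η (min t (S ω)) * (XX x a M t ω * XX x' a' M' t ω) ∂P = η 0 * (x * x') +
      ∫ z : ℝ × Ω, ind S z * (deriv η z.1 * (XX x a M z.1 z.2 * XX x' a' M' z.1 z.2) +
      η z.1 * (a z.1 z.2 * XX x' a' M' z.1 z.2 + a' z.1 z.2 * XX x a M z.1 z.2 +
        b z.1 z.2 * b' z.1 z.2)) ∂((volume.restrict (Ioo (0 : ℝ) t)).prod P) := by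
  have hads : ∀ s : ℝ≥0, StronglyMeasurable[F s] ((fun s ω => a s ω + a' s ω) (s : ℝ)) :=
    fun s => (had s).add (had' s)
  have hp : ∀ t ω, prim (fun s ω => a s ω + a' s ω) t ω = prim a t ω + prim a' t ω :=
    fun t ω => intervalIntegral.integral_add (h.da.int ω).intervalIntegrable
      (h'.da.int ω).intervalIntegrable
  have hX : ∀ t ω, XX (x + x') (fun s ω => a s ω + a' s ω) (fun s ω => M s ω + M' s ω) t ω =
      XX x a M t ω + XX x' a' M' t ω := fun t ω => by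
    unfold XX
    rw [hp]
    ring
  set Z : ℝ → Ω → ℝ := fun s ω => XX x a M s ω * XX x' a' M' s ω with hZ
  set z : ℝ → Ω → ℝ := fun s ω => a s ω * XX x' a' M' s ω + a' s ω * XX x a M s ω +
    b s ω * b' s ω with hz
  have ez : ∀ p : ℝ × Ω, z p.1 p.2 = ((2 * ((a p.1 p.2 + a' p.1 p.2) *
      (XX x a M p.1 p.2 + XX x' a' M' p.1 p.2)) + (b p.1 p.2 + b' p.1 p.2) ^ 2) -
      (2 * (a p.1 p.2 * XX x a M p.1 p.2) + b p.1 p.2 ^ 2) -
      (2 * (a' p.1 p.2 * XX x' a' M' p.1 p.2) + b' p.1 p.2 ^ 2)) * (1 / 2) := fun p => by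
    simp only [hz]
    ring
  have eZ : ∀ s ω, Z s ω = ((XX x a M s ω + XX x' a' M' s ω) ^ 2 - XX x a M s ω ^ 2 -
      XX x' a' M' s ω ^ 2) * (1 / 2) := fun s ω => by
    simp only [hZ]
    ring
  have sq3 : ∀ s ∈ Icc (0 : ℝ) 1, Integrable (fun p : ℝ × Ω => z p.1 p.2)
      ((volume.restrict (Ioo (0 : ℝ) s)).prod P) ∧ Integrable (Z s) P ∧
      ∫ ω, Z s ω ∂P = x * x' + ∫ p : ℝ × Ω, z p.1 p.2 ∂((volume.restrict (Ioo (0 : ℝ) s)).prod P) := by
    intro s hs1
    obtain ⟨q1, q2, q3⟩ := h.square had x hs1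
    obtain ⟨r1, r2, r3⟩ := h'.square had' x' hs1
    obtain ⟨u1, u2, u3⟩ := hs.square hads (x + x') hs1
    simp only [hX] at u1 u2 u3
    simp only [ez]
    have v1 := ((u2.sub q2).sub r2).mul_const (1 / 2)
    have v2 := ((u1.sub q1).sub r1).mul_const (1 / 2)
    have w1 := u1.sub q1
    have w2 := u2.sub q2
    refine ⟨v1, v2.congr (ae_of_all _ fun ω => (eZ s ω).symm), ?_⟩
    simp only [eZ]
    rw [integral_mul_const, integral_mul_const, integral_sub (by exact w1) r1, integral_sub u1 q1,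
      integral_sub (by exact w2) r2, integral_sub u2 q2, u3, q3, r3]
    ring
  have hXs : ∀ s t ω, 0 ≤ s → s ≤ t → t ≤ 1 → S ω ≤ s → XX x a M t ω = XX x a M s ω := by
    intro s t ω h0 h1 h2 h3
    unfold XX
    rw [hstop s t ω h0 h1 h2 h3]
    have : prim a t ω = prim a s ω := by
      unfold prim
      have hi : ∀ u v : ℝ, IntervalIntegrable (fun s => a s ω) volume u v :=
        fun u v => (h.da.int ω).intervalIntegrable
      rw [← intervalIntegral.integral_add_adjacent_intervals (hi 0 s) (hi s t)]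
      have e2 : ∫ r in s..t, a r ω = 0 := by
        rw [intervalIntegral.integral_of_le h1]
        exact setIntegral_eq_zero_of_forall_eq_zero fun r hr =>
          ka r ω (h0.trans_lt hr.1) (h3.trans hr.1.le)
      rw [e2, add_zero]
    rw [this]
  have hXs' : ∀ s t ω, 0 ≤ s → s ≤ t → t ≤ 1 → S ω ≤ s → XX x' a' M' t ω = XX x' a' M' s ω := by
    intro s t ω h0 h1 h2 h3
    unfold XX
    rw [hstop' s t ω h0 h1 h2 h3]
    have : prim a' t ω = prim a' s ω := by
      unfold prim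
      have hi : ∀ u v : ℝ, IntervalIntegrable (fun s => a' s ω) volume u v :=
        fun u v => (h'.da.int ω).intervalIntegrable
      rw [← intervalIntegral.integral_add_adjacent_intervals (hi 0 s) (hi s t)]
      have e2 : ∫ r in s..t, a' r ω = 0 := by
        rw [intervalIntegral.integral_of_le h1]
        exact setIntegral_eq_zero_of_forall_eq_zero fun r hr =>
          ka' r ω (h0.trans_lt hr.1) (h3.trans hr.1.le)
      rw [e2, add_zero]
    rw [this]
  have main := weight (P := P) (Z := Z) (z := z) (S := S) (c := x * x')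
    (C := ((3 * (x ^ 2 + K ^ 2) + 3 * K) + (3 * (x' ^ 2 + K' ^ 2) + 3 * K')) * (1 / 2)) hη hS hS0
    ((h.x_joint x).mul (h'.x_joint x'))
    (fun s hs1 => ⟨(sq3 s hs1).2.1, ?_⟩) (sq3 1 ⟨zero_le_one, le_rfl⟩).1
    (fun s hs1 => (sq3 s hs1).2.2)
    (fun s t ω h0 h1 h2 h3 => by
      simp only [hZ]
      rw [hXs s t ω h0 h1 h2 h3, hXs' s t ω h0 h1 h2 h3])
    (fun s ω h0 h3 => by
      simp only [hz]
      rw [ka s ω h0 h3, ka' s ω h0 h3, kb s ω h0 h3]
      ring) ht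
  · exact main
  · have q1 := (h.square had x hs1).1
    have r1 := (h'.square had' x' hs1).1
    calc ∫ ω, |Z s ω| ∂P ≤ ∫ ω, (XX x a M s ω ^ 2 + XX x' a' M' s ω ^ 2) * (1 / 2) ∂P := by
          refine integral_mono_of_nonneg (ae_of_all _ fun _ => abs_nonneg _)
            ((q1.add r1).mul_const _) (ae_of_all _ fun ω => ?_)
          simp only [hZ]
          rw [abs_mul, ← sq_abs (XX x a M s ω), ← sq_abs (XX x' a' M' s ω)]
          nlinarith [sq_nonneg (|XX x a M s ω| - |XX x' a' M' s ω|)]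
      _ = (∫ ω, XX x a M s ω ^ 2 ∂P + ∫ ω, XX x' a' M' s ω ^ 2 ∂P) * (1 / 2) := by
          rw [integral_mul_const, integral_add q1 r1]
      _ ≤ _ := by
          have := h.x_sq_le x hs1
          have := h'.x_sq_le x' hs1
          linarith

end Pool.Agent.W_332fe5
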